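import Pool.Agent.Helper60.Hit.Bridge

set_option autoImplicit false

/-!
# Catalysts for Sum's maps (r = 2): operators and weight bookkeeping

Helper file for the hand-in `MP_27a5c7_al.Catalyst`.
-/

namespace Pool.Agent.CTL45

open Pool.Agent.Helper60.Hit MvPolynomial

variable {d : ℕ}

theorem lin_add {g h : MvPolynomial (Fin d) (ZMod 2)} (hg : Lin d g) (hh : Lin d h) :
    Lin d (g + h) := by
  refine ⟨hg.1.add hh.1, ?_⟩
  rw [map_add, hg.2, hh.2, CharTwo.add_sq]
  ring

/-- the general principle: an operator that preserves hit polynomials, sends `e` to `e0` plus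
smaller monomials and smaller monomials to smaller ones transports admissibility from `e0` to
`e` -/
theorem adm_of_op {e e0 : Fin d → ℕ}
    (T : MvPolynomial (Fin d) (ZMod 2) →ₗ[ZMod 2] MvPolynomial (Fin d) (ZMod 2))
    (hT : ∀ g ∈ hits d, T g ∈ hits d)
    (hfull : T (mono e) - mono e0 ∈ msp (fun y => MonLT y e0))
    (hlow : ∀ y, MonLT y e → T (mono y) ∈ msp (fun y => MonLT y e0))
    (h : Adm e0) : Adm e := by
  intro hin
  apply h
  rw [Submodule.mem_sup] at hin
  obtain ⟨g, hg, f, hf, hgf⟩ := hin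
  have h1 := hT g hg
  have h2 : T f ∈ msp (fun z => MonLT z e0) := by
    clear hgf
    induction hf using Submodule.span_induction with
    | zero => rw [map_zero]; exact Submodule.zero_mem _
    | add x y _ _ hx hy => rw [map_add]; exact Submodule.add_mem _ hx hy
    | smul a x _ hx => rw [map_smul]; exact Submodule.smul_mem _ _ hx
    | mem x hx =>
      obtain ⟨y, rfl, hy⟩ := hx
      exact hlow y hy
  have h3 : mono e0 = T g + (T f - (T (mono e) - mono e0)) := by
    have : T (mono e) = T g + T f := by rw [← hgf, map_add]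
    rw [this]; ring
  rw [h3]
  exact Submodule.add_mem_sup h1 (Submodule.sub_mem _ h2 hfull)

/-- `x_k ↦ u`, `x_c ↦ v`, the other variables fixed -/
noncomputable def sb (k c : Fin d) (u v : MvPolynomial (Fin d) (ZMod 2)) :
    MvPolynomial (Fin d) (ZMod 2) →ₐ[ZMod 2] MvPolynomial (Fin d) (ZMod 2) :=
  aeval (fun j => if j = k then u else if j = c then v else X j)

theorem sb_hits (k c : Fin d) {u v : MvPolynomial (Fin d) (ZMod 2)} (hu : Lin d u) (hv : Lin d v)
    {g : MvPolynomial (Fin d) (ZMod 2)} (hg : g ∈ hits d) : sb k c u v g ∈ hits d := by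
  refine aeval_hits _ (fun i => ?_) hg
  split_ifs
  · exact hu
  · exact hv
  · exact lin_X i

/-- `y` with the entries at `k` and `c` replaced by `0` -/
def off (k c : Fin d) (y : Fin d → ℕ) : Fin d → ℕ := fun j => if j = k ∨ j = c then 0 else y j

theorem sb_mono {k c : Fin d} (hkc : k ≠ c) (u v : MvPolynomial (Fin d) (ZMod 2))
    (y : Fin d → ℕ) : sb k c u v (mono y) = u ^ y k * v ^ y c * mono (off k c y) := by
  classical
  unfold sb
  rw [aeval_mono, mono_eq_prod, ← Finset.mul_prod_erase _ _ (Finset.mem_univ k),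
    ← Finset.mul_prod_erase _ _ (Finset.mem_erase.mpr ⟨hkc.symm, Finset.mem_univ c⟩),
    ← Finset.mul_prod_erase (Finset.univ) (fun i => (X i : MvPolynomial (Fin d) (ZMod 2)) ^ off k c y i)
      (Finset.mem_univ k),
    ← Finset.mul_prod_erase (Finset.univ.erase k)
      (fun i => (X i : MvPolynomial (Fin d) (ZMod 2)) ^ off k c y i)
      (Finset.mem_erase.mpr ⟨hkc.symm, Finset.mem_univ c⟩)]
  have h1 : off k c y k = 0 := by simp [off]
  have h2 : off k c y c = 0 := by simp [off]
  rw [h1, h2, pow_zero, pow_zero, one_mul, one_mul, if_pos rfl, if_neg hkc.symm, if_pos rfl,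
    mul_assoc]
  congr 1
  congr 1
  refine Finset.prod_congr rfl fun j hj => ?_
  rw [Finset.mem_erase, Finset.mem_erase] at hj
  rw [if_neg hj.2.1, if_neg hj.1]
  unfold off
  rw [if_neg (by tauto)]

/-! ### weights -/

theorem LexLE.trans {a b c : ℕ → ℕ} (h1 : LexLE a b) (h2 : LexLE b c) : LexLE a c := by
  rcases h1 with rfl | h1
  · exact h2
  · exact Or.inr (h1.trans_le h2)

theorem LexLT.add_right {a b : ℕ → ℕ} (h : LexLT a b) (c : ℕ → ℕ) : LexLT (a + c) (b + c) := by
  obtain ⟨i, hi, hi'⟩ := h
  exact ⟨i, fun l hl => by simp [hi l hl], by simpa using hi'⟩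

theorem LexLE.add_right {a b : ℕ → ℕ} (h : LexLE a b) (c : ℕ → ℕ) : LexLE (a + c) (b + c) := by
  rcases h with rfl | h
  · exact Or.inl rfl
  · exact Or.inr (LexLT.add_right h c)

theorem wt_single_pair {c q : Fin d} (hcq : c ≠ q) (a b : ℕ) :
    wt (Pi.single c a + Pi.single q b : Fin d → ℕ) = wt (Pi.single c a : Fin d → ℕ) +
      wt (Pi.single q b : Fin d → ℕ) := by
  apply wt_add_eq
  rintro i s ⟨h1, h2⟩
  by_cases hi : i = c
  · subst hi
    rw [Pi.single_eq_of_ne hcq] at h2; simp at h2
  · rw [Pi.single_eq_of_ne hi] at h1; simp at h1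

/-- splitting an exponent along an odd binomial coefficient between two variables keeps the
weight -/
theorem wt_split {c q w : Fin d} (hcq : c ≠ q) {a j : ℕ} (h : a.choose j % 2 = 1) :
    wt (Pi.single c (a - j) + Pi.single q j : Fin d → ℕ) = wt (Pi.single w a : Fin d → ℕ) := by
  rw [wt_single_pair hcq]
  obtain ⟨_, hb⟩ := lucas_bits a j h
  funext s
  rw [Pi.add_apply, wt_single, wt_single, wt_single, hb s]
  omega

theorem wt_off {k c : Fin d} (hkc : k ≠ c) (y : Fin d → ℕ) :
    wt y = wt (off k c y) + (wt (Pi.single k (y k) : Fin d → ℕ) +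
      wt (Pi.single c (y c) : Fin d → ℕ)) := by
  have h1 : y = off k c y + (Pi.single k (y k) + Pi.single c (y c)) := by
    funext j
    simp only [Pi.add_apply, off]
    by_cases hk : j = k
    · subst hk; simp [Pi.single_eq_of_ne hkc]
    · by_cases hc : j = c
      · subst hc; simp [Pi.single_eq_of_ne hkc.symm]
      · simp [hk, hc, Pi.single_eq_of_ne hk, Pi.single_eq_of_ne hc]
  conv_lhs => rw [h1]
  rw [wt_add_eq, wt_single_pair hkc]
  rintro i s ⟨h2, h3⟩
  by_cases hk : i = k
  · subst hk; simp [off] at h2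
  · by_cases hc : i = c
    · subst hc; simp [off] at h2
    · simp [Pi.single_eq_of_ne hk, Pi.single_eq_of_ne hc] at h3

/-- the sum of an exponent vector split in the same way -/
theorem sum_off {k c : Fin d} (hkc : k ≠ c) (y : Fin d → ℕ) :
    ∑ i, y i = ∑ i, off k c y i + (y k + y c) := by
  have h1 : ∀ i, y i = off k c y i + ((Pi.single k (y k) : Fin d → ℕ) i +
      (Pi.single c (y c) : Fin d → ℕ) i) := by
    intro j
    simp only [off]
    by_cases hk : j = k
    · subst hk; simp [Pi.single_eq_of_ne hkc]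
    · by_cases hc : j = c
      · subst hc; simp [Pi.single_eq_of_ne hkc.symm]
      · simp [hk, hc, Pi.single_eq_of_ne hk, Pi.single_eq_of_ne hc]
  rw [Finset.sum_congr rfl (fun i _ => h1 i), Finset.sum_add_distrib, Finset.sum_add_distrib]
  simp [Finset.sum_pi_single']

end Pool.Agent.CTL45
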