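import Pool.Agent.CTL45.Base

set_option autoImplicit false

/-!
# Catalysts strictly between the new variable and the spike source (r = 2)
-/

namespace Pool.Agent.CTL45

open Pool.Agent.Helper60.Hit MvPolynomial

variable {d : ℕ}

/-- `(x_c + x_q)^a + x_c^a` -/
theorem pow_diff (c q : Fin d) (a : ℕ) :
    (X c + X q : MvPolynomial (Fin d) (ZMod 2)) ^ a + X c ^ a =
      ∑ j ∈ Finset.range a, ((a.choose (j + 1) : ℕ) : MvPolynomial (Fin d) (ZMod 2)) *
        mono (Pi.single c (a - (j + 1)) + Pi.single q (j + 1)) := by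
  rw [add_comm (X c) (X q), add_pow, Finset.sum_range_succ']
  simp only [pow_zero, one_mul, Nat.choose_zero_right, Nat.cast_one, mul_one, Nat.sub_zero]
  rw [add_assoc, CharTwo.add_self_eq_zero, add_zero]
  refine Finset.sum_congr rfl fun j _ => ?_
  rw [mono_add, ← X_pow_eq_mono, ← X_pow_eq_mono]
  ring

/-- the full cross effect `(x_c + x_q)^m + x_c^m + x_q^m + 0^m` -/
theorem cross_eq (c q : Fin d) (m : ℕ) :
    (X c + X q : MvPolynomial (Fin d) (ZMod 2)) ^ m + X c ^ m + X q ^ m + 0 ^ m =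
      ∑ j ∈ Finset.range (m - 1), ((m.choose (j + 1) : ℕ) : MvPolynomial (Fin d) (ZMod 2)) *
        mono (Pi.single c (m - (j + 1)) + Pi.single q (j + 1)) := by
  rw [pow_diff]
  rcases Nat.eq_zero_or_pos m with rfl | hm
  · simp [CharTwo.add_self_eq_zero]
  · obtain ⟨m, rfl⟩ : ∃ m', m = m' + 1 := ⟨m - 1, by omega⟩
    rw [Finset.sum_range_succ, Nat.add_sub_cancel, Nat.choose_self, Nat.cast_one, one_mul,
      Nat.sub_self, Pi.single_zero, zero_add, ← X_pow_eq_mono, zero_pow (by omega), add_zero,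
      add_assoc, CharTwo.add_self_eq_zero, add_zero]

/-- the operator: cross effect of `x_k` over `{c, q}` after `(x_c ↦ x_c + x_q) - id` -/
noncomputable def TB (k c q : Fin d) :
    MvPolynomial (Fin d) (ZMod 2) →ₗ[ZMod 2] MvPolynomial (Fin d) (ZMod 2) :=
  ((sb k c (X c + X q) (X c + X q)).toLinearMap + (sb k c (X c) (X c + X q)).toLinearMap +
    (sb k c (X q) (X c + X q)).toLinearMap + (sb k c 0 (X c + X q)).toLinearMap) +
  ((sb k c (X c + X q) (X c)).toLinearMap + (sb k c (X c) (X c)).toLinearMap +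
    (sb k c (X q) (X c)).toLinearMap + (sb k c 0 (X c)).toLinearMap)

theorem TB_hits (k c q : Fin d) {g : MvPolynomial (Fin d) (ZMod 2)} (hg : g ∈ hits d) :
    TB k c q g ∈ hits d := by
  have l1 : Lin d (X c + X q) := lin_add (lin_X c) (lin_X q)
  have l2 : Lin d (X c) := lin_X c
  have l3 : Lin d (X q) := lin_X q
  have l4 : Lin d (0 : MvPolynomial (Fin d) (ZMod 2)) := lin_zero
  unfold TB
  simp only [LinearMap.add_apply, AlgHom.toLinearMap_apply]
  refine Submodule.add_mem _ (Submodule.add_mem _ (Submodule.add_mem _ (Submodule.add_mem _ ?_ ?_)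
    ?_) ?_) (Submodule.add_mem _ (Submodule.add_mem _ (Submodule.add_mem _ ?_ ?_) ?_) ?_)
  all_goals exact sb_hits k c (by assumption) (by assumption) hg

theorem TB_mono {k c : Fin d} (hkc : k ≠ c) (q : Fin d) (y : Fin d → ℕ) :
    TB k c q (mono y) = (∑ i ∈ Finset.range (y k - 1),
        (((y k).choose (i + 1) : ℕ) : MvPolynomial (Fin d) (ZMod 2)) *
          mono (Pi.single c (y k - (i + 1)) + Pi.single q (i + 1))) *
      (∑ j ∈ Finset.range (y c), (((y c).choose (j + 1) : ℕ) : MvPolynomial (Fin d) (ZMod 2)) *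
        mono (Pi.single c (y c - (j + 1)) + Pi.single q (j + 1))) * mono (off k c y) := by
  rw [← cross_eq, ← pow_diff]
  unfold TB
  simp only [LinearMap.add_apply, AlgHom.toLinearMap_apply, sb_mono hkc]
  ring

end Pool.Agent.CTL45
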