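import Pool.Agent.CTL45.BetweenTerm

set_option autoImplicit false

/-!
# Admissibility with a catalyst strictly between
-/

namespace Pool.Agent.CTL45

open Pool.Agent.Helper60.Hit MvPolynomial

variable {d : ℕ} {k c q : Fin d} {e e0 : Fin d → ℕ}

theorem Sit.TB_low (S : Sit k c q e e0) {y : Fin d → ℕ} (hy : MonLT y e) :
    TB k c q (mono y) ∈ msp (fun z => MonLT z e0) := by
  rw [TB_sum (ne_of_lt S.kc)]
  refine Submodule.sum_mem _ fun x hx => ?_
  rw [Finset.mem_product, Finset.mem_range, Finset.mem_range] at hx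
  refine natCast_mul_mem _ fun hodd => mono_mem_msp ?_
  have h1 : (y k).choose (x.1 + 1) % 2 = 1 ∧ (y c).choose (x.2 + 1) % 2 = 1 := by
    have := Nat.odd_mul.mp (Nat.odd_iff.mpr hodd)
    exact ⟨Nat.odd_iff.mp this.1, Nat.odd_iff.mp this.2⟩
  exact S.low_term hy (by omega) (by omega) (by omega) h1.1 h1.2

theorem Sit.TB_full (S : Sit k c q e e0) (hc : e c % 4 = 1 ∨ e c % 4 = 2) :
    TB k c q (mono e) - mono e0 ∈ msp (fun z => MonLT z e0) := by
  classical
  -- the leading index
  obtain ⟨i0, j0, hi0, hj0, hi2, hij, hjc, hodd⟩ : ∃ i j : ℕ, 1 ≤ i ∧ 1 ≤ j ∧ i < 3 ∧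
      i + j = 3 ∧ j ≤ e c ∧ (e c).choose j % 2 = 1 := by
    rcases hc with h | h
    · refine ⟨2, 1, by norm_num, by norm_num, by norm_num, by norm_num, by omega, ?_⟩
      rw [Nat.choose_one_right]; omega
    · refine ⟨1, 2, by norm_num, by norm_num, by norm_num, by norm_num, by omega, ?_⟩
      rw [Nat.choose_two_right]
      obtain ⟨m, hm⟩ : ∃ m, e c = 4 * m + 2 := ⟨e c / 4, by omega⟩
      rw [hm]
      have : (4 * m + 2) * (4 * m + 2 - 1) / 2 = (2 * m + 1) * (4 * m + 1) := by
        apply Nat.div_eq_of_eq_mul_left (by norm_num)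
        have : 4 * m + 2 - 1 = 4 * m + 1 := by omega
        rw [this]; ring
      rw [this, Nat.mul_mod]
      have h1 : (2 * m + 1) % 2 = 1 := by omega
      have h2 : (4 * m + 1) % 2 = 1 := by omega
      rw [h1, h2]
  rw [TB_sum (ne_of_lt S.kc), S.ek]
  have hmem : (i0 - 1, j0 - 1) ∈ Finset.range (3 - 1) ×ˢ Finset.range (e c) := by
    rw [Finset.mem_product, Finset.mem_range, Finset.mem_range]
    exact ⟨by show i0 - 1 < 3 - 1; omega, by show j0 - 1 < e c; omega⟩
  rw [← Finset.add_sum_erase _ _ hmem]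
  have hmain : (((((3 : ℕ).choose ((i0 - 1, j0 - 1).1 + 1) *
      (e c).choose ((i0 - 1, j0 - 1).2 + 1) : ℕ)) : MvPolynomial (Fin d) (ZMod 2)) *
        mono (tt k c q e ((i0 - 1, j0 - 1).1 + 1) ((i0 - 1, j0 - 1).2 + 1))) = mono e0 := by
    have h1 : (i0 - 1, j0 - 1).1 + 1 = i0 := by show i0 - 1 + 1 = i0; omega
    have h2 : (i0 - 1, j0 - 1).2 + 1 = j0 := by show j0 - 1 + 1 = j0; omega
    rw [h1, h2, S.lead hjc (by omega) hij, odd_natCast, one_mul]
    rw [Nat.mul_mod, hodd]
    have : i0 = 1 ∨ i0 = 2 := by omega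
    rcases this with rfl | rfl <;> rfl
  rw [hmain, add_sub_cancel_left]
  refine Submodule.sum_mem _ fun x hx => ?_
  rw [Finset.mem_erase, Finset.mem_product, Finset.mem_range, Finset.mem_range] at hx
  refine natCast_mul_mem _ fun hodd' => mono_mem_msp ?_
  have h1 : (3 : ℕ).choose (x.1 + 1) % 2 = 1 ∧ (e c).choose (x.2 + 1) % 2 = 1 := by
    have := Nat.odd_mul.mp (Nat.odd_iff.mpr hodd')
    exact ⟨Nat.odd_iff.mp this.1, Nat.odd_iff.mp this.2⟩
  refine S.e_term (by omega) (by omega) (by omega) h1.2 ?_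
  intro hsum
  apply hx.1
  -- the index with `i + j = 3` is the leading one
  obtain ⟨_, hb⟩ := lucas_bits _ _ h1.2
  obtain ⟨_, hb0⟩ := lucas_bits _ _ hodd
  have hx1 : x.1 + 1 = 1 ∨ x.1 + 1 = 2 := by omega
  have hi01 : i0 = 1 ∨ i0 = 2 := by omega
  have hb1 := hb 1
  have hb0' := hb 0
  have hc1 := hb0 1
  have hc0 := hb0 0
  simp only [pow_zero, pow_one, Nat.div_one] at hb1 hb0' hc1 hc0
  ext
  · show x.1 = i0 - 1
    rcases hx1 with h | h <;> rcases hi01 with h' | h'
    · omega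
    · exfalso
      have e1 : x.2 + 1 = 2 := by omega
      have e2 : j0 = 1 := by omega
      rw [e1] at hb1; rw [e2] at hc0
      rcases hc with hc | hc <;> omega
    · exfalso
      have e1 : x.2 + 1 = 1 := by omega
      have e2 : j0 = 2 := by omega
      rw [e1] at hb0'; rw [e2] at hc1
      rcases hc with hc | hc <;> omega
    · omega
  · show x.2 = j0 - 1
    rcases hx1 with h | h <;> rcases hi01 with h' | h'
    · omega
    · exfalso
      have e1 : x.2 + 1 = 2 := by omega
      have e2 : j0 = 1 := by omega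
      rw [e1] at hb1; rw [e2] at hc0
      rcases hc with hc | hc <;> omega
    · exfalso
      have e1 : x.2 + 1 = 1 := by omega
      have e2 : j0 = 2 := by omega
      rw [e1] at hb0'; rw [e2] at hc1
      rcases hc with hc | hc <;> omega
    · omega

/-- catalyst strictly between the new variable and the source -/
theorem Sit.adm (S : Sit k c q e e0) (hc : e c % 4 = 1 ∨ e c % 4 = 2) (h : Adm e0) : Adm e :=
  adm_of_op (TB k c q) (fun _ hg => TB_hits k c q hg) (S.TB_full hc) (fun _ hy => S.TB_low hy) h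

end Pool.Agent.CTL45
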