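import Pool.Agent.CTL45.Between

set_option autoImplicit false

/-!
# The terms of the operator `TB`
-/

namespace Pool.Agent.CTL45

open Pool.Agent.Helper60.Hit MvPolynomial

variable {d : ℕ}

/-- the exponent vector of a term of `TB k c q (mono y)` -/
def tt (k c q : Fin d) (y : Fin d → ℕ) (i j : ℕ) : Fin d → ℕ :=
  (Pi.single c (y k - i) + Pi.single q i) + (Pi.single c (y c - j) + Pi.single q j) + off k c y

theorem TB_sum {k c : Fin d} (hkc : k ≠ c) (q : Fin d) (y : Fin d → ℕ) :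
    TB k c q (mono y) = ∑ x ∈ Finset.range (y k - 1) ×ˢ Finset.range (y c),
      ((((y k).choose (x.1 + 1) * (y c).choose (x.2 + 1) : ℕ)) :
        MvPolynomial (Fin d) (ZMod 2)) * mono (tt k c q y (x.1 + 1) (x.2 + 1)) := by
  rw [TB_mono hkc, Finset.sum_mul_sum, Finset.sum_mul, Finset.sum_product]
  refine Finset.sum_congr rfl fun i _ => ?_
  rw [Finset.sum_mul]
  refine Finset.sum_congr rfl fun j _ => ?_
  have h : mono (tt k c q y (i + 1) (j + 1)) =
      mono (Pi.single c (y k - (i + 1)) + Pi.single q (i + 1) : Fin d → ℕ) *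
      mono (Pi.single c (y c - (j + 1)) + Pi.single q (j + 1) : Fin d → ℕ) *
      mono (off k c y) := by
    rw [← mono_add, ← mono_add]
    rfl
  rw [h]
  push_cast
  ring

theorem tt_k {k c q : Fin d} (hkc : k ≠ c) (hkq : k ≠ q) (y : Fin d → ℕ) (i j : ℕ) :
    tt k c q y i j k = 0 := by
  simp [tt, off, Pi.single_eq_of_ne hkc, Pi.single_eq_of_ne hkq]

theorem tt_c {k c q : Fin d} (hcq : c ≠ q) (y : Fin d → ℕ) (i j : ℕ) :
    tt k c q y i j c = (y k - i) + (y c - j) := by
  simp [tt, off, Pi.single_eq_of_ne hcq]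

theorem tt_q {k c q : Fin d} (hkq : k ≠ q) (hcq : c ≠ q) (y : Fin d → ℕ) (i j : ℕ) :
    tt k c q y i j q = i + j + y q := by
  simp [tt, off, Pi.single_eq_of_ne hcq.symm, hkq.symm, hcq.symm]

theorem tt_other {k c q l : Fin d} (hk : l ≠ k) (hc : l ≠ c) (hq : l ≠ q) (y : Fin d → ℕ)
    (i j : ℕ) : tt k c q y i j l = y l := by
  simp [tt, off, Pi.single_eq_of_ne hc, Pi.single_eq_of_ne hq, hk, hc]

theorem sum_single_pair {c q : Fin d} (a b : ℕ) :
    ∑ l, (Pi.single c a + Pi.single q b : Fin d → ℕ) l = a + b := by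
  simp only [Pi.add_apply]
  rw [Finset.sum_add_distrib]
  simp [Finset.sum_pi_single']

theorem tt_sum {k c q : Fin d} (hkc : k ≠ c) (y : Fin d → ℕ) {i j : ℕ} (hi : i ≤ y k)
    (hj : j ≤ y c) : ∑ l, tt k c q y i j l = ∑ l, y l := by
  have h : ∀ l, tt k c q y i j l = (Pi.single c (y k - i) + Pi.single q i : Fin d → ℕ) l +
      (Pi.single c (y c - j) + Pi.single q j : Fin d → ℕ) l + off k c y l := fun l => rfl
  rw [Finset.sum_congr rfl (fun l _ => h l), Finset.sum_add_distrib, Finset.sum_add_distrib,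
    sum_single_pair, sum_single_pair, sum_off hkc y]
  omega

theorem tt_le {k c q : Fin d} (hkc : k ≠ c) (hcq : c ≠ q) (y : Fin d → ℕ) {i j : ℕ}
    (hi : (y k).choose i % 2 = 1) (hj : (y c).choose j % 2 = 1) :
    LexLE (wt (tt k c q y i j)) (wt y) := by
  unfold tt
  refine LexLE.trans (wt_add_le _ _) ?_
  rw [wt_off hkc y, add_comm (wt (off k c y))]
  refine LexLE.add_right ?_ _
  have h1 := wt_add_le (Pi.single c (y k - i) + Pi.single q i : Fin d → ℕ)
    (Pi.single c (y c - j) + Pi.single q j)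
  rwa [wt_split (w := k) hcq hi, wt_split (w := c) hcq hj] at h1

theorem tt_carry {k c q : Fin d} (hkc : k ≠ c) (hcq : c ≠ q) (y : Fin d → ℕ) {i j s : ℕ}
    (hi : (y k).choose i % 2 = 1) (hj : (y c).choose j % 2 = 1)
    (h1 : i / 2 ^ s % 2 = 1) (h2 : j / 2 ^ s % 2 = 1) :
    LexLT (wt (tt k c q y i j)) (wt y) := by
  unfold tt
  refine (wt_add_le _ _).trans_lt ?_
  rw [wt_off hkc y, add_comm (wt (off k c y))]
  refine LexLT.add_right ?_ _
  have h3 := wt_add_lt (a := (Pi.single c (y k - i) + Pi.single q i : Fin d → ℕ))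
    (b := (Pi.single c (y c - j) + Pi.single q j : Fin d → ℕ)) (i := q) (s := s)
    (by simp [Pi.single_eq_of_ne hcq.symm, h1]) (by simp [Pi.single_eq_of_ne hcq.symm, h2])
  rwa [wt_split (w := k) hcq hi, wt_split (w := c) hcq hj] at h3

theorem monLT_of_le {y u : Fin d → ℕ} (h1 : ∑ i, y i = ∑ i, u i) (h2 : LexLE (wt y) (wt u))
    (h3 : LexF y u) : MonLT y u := by
  refine ⟨h1, ?_⟩
  rcases h2 with h2 | h2
  · exact Or.inr ⟨h2, h3⟩
  · exact Or.inl h2

/-- the situation: new exponent `3` at `k`, catalyst `c`, source `q` -/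
structure Sit (k c q : Fin d) (e e0 : Fin d → ℕ) : Prop where
  kc : k < c
  cq : c < q
  ek : e k = 3
  e0k : e0 k = 0
  eq : e0 q = e q + 3
  e4 : e q % 4 = 0
  other : ∀ l, l ≠ k → l ≠ q → e0 l = e l

variable {k c q : Fin d} {e e0 : Fin d → ℕ}

theorem sum_wt_transfer (hkq : k ≠ q) (ek : e k = 3) (e0k : e0 k = 0) (eq : e0 q = e q + 3)
    (e4 : e q % 4 = 0) (other : ∀ l, l ≠ k → l ≠ q → e0 l = e l) :
    wt e0 = wt e ∧ ∑ l, e0 l = ∑ l, e l := by
  have hoff : off k q e0 = off k q e := by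
    funext l
    unfold off
    split_ifs with h
    · rfl
    · exact other l (by tauto) (by tauto)
  constructor
  · rw [wt_off hkq e0, wt_off hkq e, hoff, ek, e0k, eq]
    congr 1
    have h1 : (Pi.single q (e q + 3) : Fin d → ℕ) = Pi.single q (e q) + Pi.single q 3 := by
      rw [← Pi.single_add]
    have h2 : wt (Pi.single q (e q) + Pi.single q 3 : Fin d → ℕ) =
        wt (Pi.single q (e q) : Fin d → ℕ) + wt (Pi.single q 3 : Fin d → ℕ) := by
      apply wt_add_eq
      rintro i s ⟨h3, h4⟩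
      by_cases hi : i = q
      · subst hi
        rw [Pi.single_eq_same] at h3 h4
        rcases s with _ | _ | s
        · simp at h3; omega
        · simp at h3; omega
        · have : 3 / 2 ^ (s + 2) = 0 := by
            apply Nat.div_eq_of_lt
            have := Nat.one_le_two_pow (n := s)
            rw [pow_add]; omega
          rw [this] at h4; simp at h4
      · rw [Pi.single_eq_of_ne hi] at h3; simp at h3
    have h5 : wt (Pi.single k 0 : Fin d → ℕ) = 0 := by
      funext s; rw [wt_single]; simp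
    have h6 : wt (Pi.single k 3 : Fin d → ℕ) = wt (Pi.single q 3 : Fin d → ℕ) := by
      funext s; rw [wt_single, wt_single]
    rw [h1, h2, h5, h6, zero_add, add_comm]
  · rw [sum_off hkq e0, sum_off hkq e, hoff, ek, e0k, eq]
    omega

theorem Sit.wt_eq (S : Sit k c q e e0) : wt e0 = wt e :=
  (sum_wt_transfer (ne_of_lt (S.kc.trans S.cq)) S.ek S.e0k S.eq S.e4 S.other).1

theorem Sit.sum_eq (S : Sit k c q e e0) : ∑ l, e0 l = ∑ l, e l :=
  (sum_wt_transfer (ne_of_lt (S.kc.trans S.cq)) S.ek S.e0k S.eq S.e4 S.other).2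

/-- terms of a smaller monomial are smaller -/
theorem Sit.low_term (S : Sit k c q e e0) {y : Fin d → ℕ} (hy : MonLT y e) {i j : ℕ}
    (hi1 : 1 ≤ i) (hi2 : i < y k) (hj1 : 1 ≤ j)
    (hi : (y k).choose i % 2 = 1) (hj : (y c).choose j % 2 = 1) :
    MonLT (tt k c q y i j) e0 := by
  have hkc := ne_of_lt S.kc
  have hcq := ne_of_lt S.cq
  have hkq := ne_of_lt (S.kc.trans S.cq)
  have hj2 := (lucas_bits _ _ hj).1
  obtain ⟨hs, hy⟩ := hy
  have hsum : ∑ l, tt k c q y i j l = ∑ l, e0 l := by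
    rw [tt_sum hkc y (by omega) hj2, hs, S.sum_eq]
  have hle := tt_le hkc hcq y hi hj
  rcases hy with hy | ⟨hw, f, hf, hf'⟩
  · refine ⟨hsum, Or.inl ?_⟩
    rw [S.wt_eq]
    exact hle.trans_lt hy
  have hle' : LexLE (wt (tt k c q y i j)) (wt e0) := by rw [S.wt_eq, ← hw]; exact hle
  by_cases hcar : ∃ s, i / 2 ^ s % 2 = 1 ∧ j / 2 ^ s % 2 = 1
  · obtain ⟨s, h1, h2⟩ := hcar
    refine ⟨hsum, Or.inl ?_⟩
    rw [S.wt_eq, ← hw]
    exact tt_carry hkc hcq y hi hj h1 h2
  push Not at hcar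
  refine monLT_of_le hsum hle' ?_
  -- now lexicographic comparison
  have hpre : ∀ l, l < f → l ≠ k → l ≠ c → l ≠ q → tt k c q y i j l = e0 l := by
    intro l hl h1 h2 h3
    rw [tt_other h1 h2 h3, hf l hl, S.other l h1 h3]
  rcases lt_trichotomy f k with hfk | hfk | hfk
  · refine ⟨f, fun l hl => ?_, ?_⟩
    · exact hpre l hl (ne_of_lt (hl.trans hfk)) (ne_of_lt ((hl.trans hfk).trans S.kc))
        (ne_of_lt (((hl.trans hfk).trans S.kc).trans S.cq))
    · rw [tt_other (ne_of_lt hfk) (ne_of_lt (hfk.trans S.kc))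
        (ne_of_lt ((hfk.trans S.kc).trans S.cq)),
        S.other f (ne_of_lt hfk) (ne_of_lt ((hfk.trans S.kc).trans S.cq))]
      exact hf'
  · subst hfk
    rw [S.ek] at hf'
    have h2 : y f = 2 := by omega
    rw [h2] at hi hi2
    have : i = 1 := by omega
    subst this
    norm_num at hi
  -- `f > k`
  have hyk : y k = 3 := by rw [hf k hfk, S.ek]
  rw [hyk] at hi hi2
  have hc_le : tt k c q y i j c ≤ y c ∧ (tt k c q y i j c = y c → i + j = 3) := by
    rw [tt_c hcq, hyk]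
    have h0 := hcar 0
    simp only [pow_zero, Nat.div_one] at h0
    have : i = 1 ∨ i = 2 := by omega
    rcases this with rfl | rfl
    · have : j % 2 ≠ 1 := h0 (by norm_num)
      omega
    · omega
  have hk0 : tt k c q y i j k = e0 k := by rw [tt_k hkc hkq, S.e0k]
  have hprec : ∀ l, l < f → l < c → tt k c q y i j l = e0 l := by
    intro l hl hlc
    by_cases hlk : l = k
    · subst hlk; exact hk0
    · exact hpre l hl hlk (ne_of_lt hlc) (ne_of_lt (hlc.trans S.cq))
  rcases lt_trichotomy f c with hfc | hfc | hfc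
  · refine ⟨f, fun l hl => hprec l hl (hl.trans hfc), ?_⟩
    rw [tt_other (ne_of_gt hfk) (ne_of_lt hfc) (ne_of_lt (hfc.trans S.cq)),
      S.other f (ne_of_gt hfk) (ne_of_lt (hfc.trans S.cq))]
    exact hf'
  · subst hfc
    refine ⟨f, fun l hl => hprec l hl hl, ?_⟩
    rw [S.other f hkc.symm hcq]
    exact lt_of_le_of_lt hc_le.1 hf'
  -- `f > c`
  have hyc : y c = e c := hf c hfc
  have he0c : e0 c = e c := S.other c hkc.symm hcq
  rcases lt_or_eq_of_le hc_le.1 with hlt | heq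
  · refine ⟨c, fun l hl => hprec l (hl.trans hfc) hl, ?_⟩
    rw [he0c, ← hyc]; exact hlt
  have hij := hc_le.2 heq
  have hq3 : tt k c q y i j q = y q + 3 := by rw [tt_q hkq hcq]; omega
  have hall : ∀ l, l < f → l ≠ q → tt k c q y i j l = e0 l := by
    intro l hl hlq
    by_cases hlk : l = k
    · subst hlk; exact hk0
    · by_cases hlc : l = c
      · subst hlc; rw [heq, hyc, he0c]
      · exact hpre l hl hlk hlc hlq
  rcases lt_trichotomy f q with hfq | hfq | hfq
  · refine ⟨f, fun l hl => hall l hl (ne_of_lt (hl.trans hfq)), ?_⟩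
    rw [tt_other (ne_of_gt hfk) (ne_of_gt hfc) (ne_of_lt hfq),
      S.other f (ne_of_gt hfk) (ne_of_lt hfq)]
    exact hf'
  · subst hfq
    refine ⟨f, fun l hl => hall l hl (ne_of_lt hl), ?_⟩
    rw [hq3, S.eq]; omega
  · refine ⟨f, fun l hl => ?_, ?_⟩
    · by_cases hlq : l = q
      · subst hlq; rw [hq3, S.eq, hf l hl]
      · exact hall l hl hlq
    · rw [tt_other (ne_of_gt hfk) (ne_of_gt hfc) (ne_of_gt hfq),
        S.other f (ne_of_gt hfk) (ne_of_gt hfq)]
      exact hf'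

/-- terms of `e` itself -/
theorem Sit.e_term (S : Sit k c q e e0) {i j : ℕ}
    (hi1 : 1 ≤ i) (hi2 : i < 3) (hj1 : 1 ≤ j)
    (hj : (e c).choose j % 2 = 1) (hne : i + j ≠ 3) :
    MonLT (tt k c q e i j) e0 := by
  have hkc := ne_of_lt S.kc
  have hcq := ne_of_lt S.cq
  have hkq := ne_of_lt (S.kc.trans S.cq)
  have hj2 := (lucas_bits _ _ hj).1
  have hi : (e k).choose i % 2 = 1 := by
    rw [S.ek]
    have : i = 1 ∨ i = 2 := by omega
    rcases this with rfl | rfl <;> rfl
  have hsum : ∑ l, tt k c q e i j l = ∑ l, e0 l := by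
    rw [tt_sum hkc e (by rw [S.ek]; omega) hj2, S.sum_eq]
  have hle := tt_le hkc hcq e hi hj
  by_cases hcar : ∃ s, i / 2 ^ s % 2 = 1 ∧ j / 2 ^ s % 2 = 1
  · obtain ⟨s, h1, h2⟩ := hcar
    refine ⟨hsum, Or.inl ?_⟩
    rw [S.wt_eq]
    exact tt_carry hkc hcq e hi hj h1 h2
  push Not at hcar
  refine monLT_of_le hsum (by rw [S.wt_eq]; exact hle) ⟨c, fun l hl => ?_, ?_⟩
  · by_cases hlk : l = k
    · subst hlk; rw [tt_k hkc hkq, S.e0k]
    · rw [tt_other hlk (ne_of_lt hl) (ne_of_lt (hl.trans S.cq)),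
        S.other l hlk (ne_of_lt (hl.trans S.cq))]
  · rw [tt_c hcq, S.ek, S.other c hkc.symm hcq]
    have h0 := hcar 0
    simp only [pow_zero, Nat.div_one] at h0
    have : i = 1 ∨ i = 2 := by omega
    rcases this with rfl | rfl
    · have : j % 2 ≠ 1 := h0 (by norm_num)
      omega
    · omega

/-- the leading term -/
theorem Sit.lead (S : Sit k c q e e0) {i j : ℕ} (hj : j ≤ e c) (hi : i ≤ 3) (hij : i + j = 3) :
    tt k c q e i j = e0 := by
  have hkc := ne_of_lt S.kc
  have hcq := ne_of_lt S.cq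
  have hkq := ne_of_lt (S.kc.trans S.cq)
  funext l
  by_cases hlk : l = k
  · subst hlk; rw [tt_k hkc hkq, S.e0k]
  by_cases hlc : l = c
  · subst hlc; rw [tt_c hcq, S.ek, S.other l hkc.symm hcq]; omega
  by_cases hlq : l = q
  · subst hlq; rw [tt_q hkq hcq, S.eq]; omega
  rw [tt_other hlk hlc hlq, S.other l hlk hlq]

end Pool.Agent.CTL45
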