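import Pool.Agent.CTL45.BetweenTerm

set_option autoImplicit false

/-!
# The variable directly in front has exponent 1 (r = 2)
-/

namespace Pool.Agent.CTL45

open Pool.Agent.Helper60.Hit MvPolynomial

variable {d : ℕ}

/-- the operator: (`x_k ↦ x_c + x_q`) - (`x_k ↦ x_c`), with the full cross effect `x_c ↦ x_q` -/
noncomputable def TP (k c q : Fin d) :
    MvPolynomial (Fin d) (ZMod 2) →ₗ[ZMod 2] MvPolynomial (Fin d) (ZMod 2) :=
  ((sb k c (X c + X q) (X q)).toLinearMap + (sb k c (X c) (X q)).toLinearMap) +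
  ((sb k c (X c + X q) 0).toLinearMap + (sb k c (X c) 0).toLinearMap)

theorem TP_hits (k c q : Fin d) {g : MvPolynomial (Fin d) (ZMod 2)} (hg : g ∈ hits d) :
    TP k c q g ∈ hits d := by
  have l1 : Lin d (X c + X q) := lin_add (lin_X c) (lin_X q)
  have l2 : Lin d (X c) := lin_X c
  have l3 : Lin d (X q) := lin_X q
  have l4 : Lin d (0 : MvPolynomial (Fin d) (ZMod 2)) := lin_zero
  unfold TP
  simp only [LinearMap.add_apply, AlgHom.toLinearMap_apply]
  refine Submodule.add_mem _ (Submodule.add_mem _ ?_ ?_) (Submodule.add_mem _ ?_ ?_)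
  all_goals exact sb_hits k c (by assumption) (by assumption) hg

/-- the exponent vector of a term of `TP k c q (mono y)` -/
def tp (k c q : Fin d) (y : Fin d → ℕ) (j : ℕ) : Fin d → ℕ :=
  (Pi.single c (y k - j) + Pi.single q j) + Pi.single q (y c) + off k c y

theorem TP_sum {k c : Fin d} (hkc : k ≠ c) (q : Fin d) (y : Fin d → ℕ) (hy : 1 ≤ y c) :
    TP k c q (mono y) = ∑ j ∈ Finset.range (y k),
      (((y k).choose (j + 1) : ℕ) : MvPolynomial (Fin d) (ZMod 2)) *
        mono (tp k c q y (j + 1)) := by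
  have h0 : TP k c q (mono y) = ((X c + X q) ^ y k + X c ^ y k) * X q ^ y c * mono (off k c y) := by
    unfold TP
    simp only [LinearMap.add_apply, AlgHom.toLinearMap_apply, sb_mono hkc]
    rw [zero_pow (by omega)]
    ring
  rw [h0, pow_diff, Finset.sum_mul, Finset.sum_mul]
  refine Finset.sum_congr rfl fun j _ => ?_
  have h : mono (tp k c q y (j + 1)) =
      mono (Pi.single c (y k - (j + 1)) + Pi.single q (j + 1) : Fin d → ℕ) *
      mono (Pi.single q (y c) : Fin d → ℕ) * mono (off k c y) := by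
    rw [← mono_add, ← mono_add]
    rfl
  rw [h, X_pow_eq_mono]
  ring

theorem TP_zero {k c : Fin d} (hkc : k ≠ c) (q : Fin d) (y : Fin d → ℕ) (hy : y c = 0) :
    TP k c q (mono y) = 0 := by
  unfold TP
  simp only [LinearMap.add_apply, AlgHom.toLinearMap_apply, sb_mono hkc]
  rw [hy]
  simp only [pow_zero, mul_one]
  exact CharTwo.add_self_eq_zero _

theorem tp_k {k c q : Fin d} (hkc : k ≠ c) (hkq : k ≠ q) (y : Fin d → ℕ) (j : ℕ) :
    tp k c q y j k = 0 := by
  simp [tp, off, Pi.single_eq_of_ne hkc, Pi.single_eq_of_ne hkq]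

theorem tp_c {k c q : Fin d} (hcq : c ≠ q) (y : Fin d → ℕ) (j : ℕ) :
    tp k c q y j c = y k - j := by
  simp [tp, off, Pi.single_eq_of_ne hcq]

theorem tp_q {k c q : Fin d} (hkq : k ≠ q) (hcq : c ≠ q) (y : Fin d → ℕ) (j : ℕ) :
    tp k c q y j q = j + y c + y q := by
  simp [tp, off, Pi.single_eq_of_ne hcq.symm, hkq.symm, hcq.symm]

theorem tp_other {k c q l : Fin d} (hk : l ≠ k) (hc : l ≠ c) (hq : l ≠ q) (y : Fin d → ℕ)
    (j : ℕ) : tp k c q y j l = y l := by
  simp [tp, off, Pi.single_eq_of_ne hc, Pi.single_eq_of_ne hq, hk, hc]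

theorem sum_single_one {q : Fin d} (a : ℕ) : ∑ l, (Pi.single q a : Fin d → ℕ) l = a := by
  simp [Finset.sum_pi_single']

theorem tp_sum {k c q : Fin d} (hkc : k ≠ c) (y : Fin d → ℕ) {j : ℕ} (hj : j ≤ y k) :
    ∑ l, tp k c q y j l = ∑ l, y l := by
  have h : ∀ l, tp k c q y j l = (Pi.single c (y k - j) + Pi.single q j : Fin d → ℕ) l +
      (Pi.single q (y c) : Fin d → ℕ) l + off k c y l := fun l => rfl
  rw [Finset.sum_congr rfl (fun l _ => h l), Finset.sum_add_distrib, Finset.sum_add_distrib,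
    sum_single_pair, sum_single_one, sum_off hkc y]
  omega

theorem wt_single_eq (c q : Fin d) (a : ℕ) :
    wt (Pi.single q a : Fin d → ℕ) = wt (Pi.single c a : Fin d → ℕ) := by
  funext s; rw [wt_single, wt_single]

theorem tp_le {k c q : Fin d} (hkc : k ≠ c) (hcq : c ≠ q) (y : Fin d → ℕ) {j : ℕ}
    (hj : (y k).choose j % 2 = 1) : LexLE (wt (tp k c q y j)) (wt y) := by
  unfold tp
  refine LexLE.trans (wt_add_le _ _) ?_
  rw [wt_off hkc y, add_comm (wt (off k c y))]
  refine LexLE.add_right ?_ _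
  have h1 := wt_add_le (Pi.single c (y k - j) + Pi.single q j : Fin d → ℕ) (Pi.single q (y c))
  rwa [wt_split (w := k) hcq hj, wt_single_eq c q] at h1

theorem tp_carry {k c q : Fin d} (hkc : k ≠ c) (hcq : c ≠ q) (y : Fin d → ℕ) {j s : ℕ}
    (hj : (y k).choose j % 2 = 1) (h1 : j / 2 ^ s % 2 = 1) (h2 : y c / 2 ^ s % 2 = 1) :
    LexLT (wt (tp k c q y j)) (wt y) := by
  unfold tp
  refine (wt_add_le _ _).trans_lt ?_
  rw [wt_off hkc y, add_comm (wt (off k c y))]
  refine LexLT.add_right ?_ _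
  have h3 := wt_add_lt (a := (Pi.single c (y k - j) + Pi.single q j : Fin d → ℕ))
    (b := (Pi.single q (y c) : Fin d → ℕ)) (i := q) (s := s)
    (by simp [Pi.single_eq_of_ne hcq.symm, h1]) (by simp [h2])
  rwa [wt_split (w := k) hcq hj, wt_single_eq c q] at h3

/-- the situation: `c` directly in front of `k`, exponent `1` at `c` -/
structure SitP (k c q : Fin d) (e e0 : Fin d → ℕ) : Prop where
  ck : (c : ℕ) + 1 = k
  kq : k < q
  ec : e c = 1
  ek : e k = 3
  e0k : e0 k = 0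
  eq : e0 q = e q + 3
  e4 : e q % 4 = 0
  other : ∀ l, l ≠ k → l ≠ q → e0 l = e l

variable {k c q : Fin d} {e e0 : Fin d → ℕ}

theorem SitP.lt (S : SitP k c q e e0) : c < k := by
  rw [Fin.lt_def]; have := S.ck; omega

theorem SitP.wt_eq (S : SitP k c q e e0) : wt e0 = wt e :=
  (sum_wt_transfer (ne_of_lt S.kq) S.ek S.e0k S.eq S.e4 S.other).1

theorem SitP.sum_eq (S : SitP k c q e e0) : ∑ l, e0 l = ∑ l, e l :=
  (sum_wt_transfer (ne_of_lt S.kq) S.ek S.e0k S.eq S.e4 S.other).2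

theorem SitP.low_term (S : SitP k c q e e0) {y : Fin d → ℕ} (hy : MonLT y e) {j : ℕ}
    (hj1 : 1 ≤ j) (hyc1 : 1 ≤ y c) (hj : (y k).choose j % 2 = 1) :
    MonLT (tp k c q y j) e0 := by
  have hck := S.lt
  have hkc := (ne_of_lt hck).symm
  have hcq := ne_of_lt (hck.trans S.kq)
  have hkq := ne_of_lt S.kq
  have hj2 := (lucas_bits _ _ hj).1
  obtain ⟨hs, hy⟩ := hy
  have hsum : ∑ l, tp k c q y j l = ∑ l, e0 l := by
    rw [tp_sum hkc y hj2, hs, S.sum_eq]
  have hle := tp_le hkc hcq y hj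
  rcases hy with hy | ⟨hw, f, hf, hf'⟩
  · refine ⟨hsum, Or.inl ?_⟩
    rw [S.wt_eq]
    exact hle.trans_lt hy
  have hle' : LexLE (wt (tp k c q y j)) (wt e0) := by rw [S.wt_eq, ← hw]; exact hle
  by_cases hcar : ∃ s, j / 2 ^ s % 2 = 1 ∧ y c / 2 ^ s % 2 = 1
  · obtain ⟨s, h1, h2⟩ := hcar
    refine ⟨hsum, Or.inl ?_⟩
    rw [S.wt_eq, ← hw]
    exact tp_carry hkc hcq y hj h1 h2
  push Not at hcar
  refine monLT_of_le hsum hle' ?_
  have he0c : e0 c = 1 := by rw [S.other c (ne_of_lt hck) hcq, S.ec]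
  have hpre : ∀ l, l < f → l ≠ k → l ≠ c → l ≠ q → tp k c q y j l = e0 l := by
    intro l hl h1 h2 h3
    rw [tp_other h1 h2 h3, hf l hl, S.other l h1 h3]
  rcases lt_trichotomy f c with hfc | hfc | hfc
  · refine ⟨f, fun l hl => ?_, ?_⟩
    · exact hpre l hl (ne_of_lt ((hl.trans hfc).trans hck)) (ne_of_lt (hl.trans hfc))
        (ne_of_lt (((hl.trans hfc).trans hck).trans S.kq))
    · rw [tp_other (ne_of_lt (hfc.trans hck)) (ne_of_lt hfc)
        (ne_of_lt ((hfc.trans hck).trans S.kq)),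
        S.other f (ne_of_lt (hfc.trans hck)) (ne_of_lt ((hfc.trans hck).trans S.kq))]
      exact hf'
  · subst hfc
    rw [S.ec] at hf'
    omega
  have hyc : y c = 1 := by rw [hf c hfc, S.ec]
  have h0 := hcar 0
  rw [hyc] at h0
  simp only [pow_zero, Nat.div_one] at h0
  have hj0 : j % 2 ≠ 1 := fun h => h0 h (by norm_num)
  have hprec : ∀ l, l < c → tp k c q y j l = e0 l := by
    intro l hl
    exact hpre l (hl.trans hfc) (ne_of_lt (hl.trans hck)) (ne_of_lt hl)
      (ne_of_lt ((hl.trans hck).trans S.kq))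
  -- `f ≥ k`
  have hkf : k ≤ f := by
    rw [Fin.le_def]; rw [Fin.lt_def] at hfc; have := S.ck; omega
  rcases lt_or_eq_of_le hkf with hfk | hfk
  swap
  · subst hfk
    rw [S.ek] at hf'
    refine ⟨c, hprec, ?_⟩
    rw [tp_c hcq, he0c]
    omega
  have hyk : y k = 3 := by rw [hf k hfk, S.ek]
  have hj2' : j = 2 := by omega
  subst hj2'
  have hk0 : tp k c q y 2 k = e0 k := by rw [tp_k hkc hkq, S.e0k]
  have hc0 : tp k c q y 2 c = e0 c := by rw [tp_c hcq, hyk, he0c]
  have hq3 : tp k c q y 2 q = y q + 3 := by rw [tp_q hkq hcq, hyc]; omega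
  have hall : ∀ l, l < f → l ≠ q → tp k c q y 2 l = e0 l := by
    intro l hl hlq
    by_cases hlk : l = k
    · subst hlk; exact hk0
    · by_cases hlc : l = c
      · subst hlc; exact hc0
      · exact hpre l hl hlk hlc hlq
  rcases lt_trichotomy f q with hfq | hfq | hfq
  · refine ⟨f, fun l hl => hall l hl (ne_of_lt (hl.trans hfq)), ?_⟩
    rw [tp_other (ne_of_gt hfk) (ne_of_gt hfc) (ne_of_lt hfq),
      S.other f (ne_of_gt hfk) (ne_of_lt hfq)]
    exact hf'
  · subst hfq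
    refine ⟨f, fun l hl => hall l hl (ne_of_lt hl), ?_⟩
    rw [hq3, S.eq]; omega
  · refine ⟨f, fun l hl => ?_, ?_⟩
    · by_cases hlq : l = q
      · subst hlq; rw [hq3, S.eq, hf l hl]
      · exact hall l hl hlq
    · rw [tp_other (ne_of_gt hfk) (ne_of_gt hfc) (ne_of_gt hfq),
        S.other f (ne_of_gt hfk) (ne_of_gt hfq)]
      exact hf'

theorem SitP.e_term (S : SitP k c q e e0) {j : ℕ} (hj1 : 1 ≤ j) (hj3 : j ≤ 3) (hne : j ≠ 2) :
    MonLT (tp k c q e j) e0 := by
  have hck := S.lt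
  have hkc := (ne_of_lt hck).symm
  have hcq := ne_of_lt (hck.trans S.kq)
  have hj : (e k).choose j % 2 = 1 := by
    rw [S.ek]
    have : j = 1 ∨ j = 3 := by omega
    rcases this with rfl | rfl <;> rfl
  refine ⟨?_, Or.inl ?_⟩
  · rw [tp_sum hkc e (by rw [S.ek]; omega), S.sum_eq]
  · rw [S.wt_eq]
    refine tp_carry (s := 0) hkc hcq e hj ?_ ?_
    · rw [pow_zero, Nat.div_one]; omega
    · rw [S.ec]; norm_num

theorem SitP.lead (S : SitP k c q e e0) : tp k c q e 2 = e0 := by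
  have hck := S.lt
  have hkc := (ne_of_lt hck).symm
  have hcq := ne_of_lt (hck.trans S.kq)
  have hkq := ne_of_lt S.kq
  funext l
  by_cases hlk : l = k
  · subst hlk; rw [tp_k hkc hkq, S.e0k]
  by_cases hlc : l = c
  · subst hlc; rw [tp_c hcq, S.ek, S.other l (ne_of_lt hck) hcq, S.ec]
  by_cases hlq : l = q
  · subst hlq; rw [tp_q hkq hcq, S.eq, S.ec]; omega
  rw [tp_other hlk hlc hlq, S.other l hlk hlq]

theorem SitP.TP_low (S : SitP k c q e e0) {y : Fin d → ℕ} (hy : MonLT y e) :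
    TP k c q (mono y) ∈ msp (fun z => MonLT z e0) := by
  rcases Nat.eq_zero_or_pos (y c) with h | h
  · rw [TP_zero (ne_of_lt S.lt).symm q y h]; exact Submodule.zero_mem _
  · rw [TP_sum (ne_of_lt S.lt).symm q y h]
    refine Submodule.sum_mem _ fun j _ => natCast_mul_mem _ fun hodd => mono_mem_msp ?_
    exact S.low_term hy (by omega) h hodd

theorem SitP.TP_full (S : SitP k c q e e0) :
    TP k c q (mono e) - mono e0 ∈ msp (fun z => MonLT z e0) := by
  rw [TP_sum (ne_of_lt S.lt).symm q e (by rw [S.ec]), S.ek]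
  have h3 : Finset.range 3 = {0, 1, 2} := by decide
  rw [h3, Finset.sum_insert (by decide), Finset.sum_insert (by decide), Finset.sum_singleton]
  have h1 : ((((3 : ℕ).choose (0 + 1) : ℕ)) : MvPolynomial (Fin d) (ZMod 2)) = 1 :=
    odd_natCast _ (by decide)
  have h2 : ((((3 : ℕ).choose (1 + 1) : ℕ)) : MvPolynomial (Fin d) (ZMod 2)) = 1 :=
    odd_natCast _ (by decide)
  have h4 : ((((3 : ℕ).choose (2 + 1) : ℕ)) : MvPolynomial (Fin d) (ZMod 2)) = 1 :=
    odd_natCast _ (by decide)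
  rw [h1, h2, h4, one_mul, one_mul, one_mul]
  have h5 : tp k c q e (1 + 1) = e0 := S.lead
  rw [h5]
  have h6 : mono (tp k c q e (0 + 1)) + (mono e0 + mono (tp k c q e (2 + 1))) - mono e0 =
      mono (tp k c q e 1) + mono (tp k c q e 3) := by ring
  rw [h6]
  exact Submodule.add_mem _ (mono_mem_msp (S.e_term (by norm_num) (by norm_num) (by norm_num)))
    (mono_mem_msp (S.e_term (by norm_num) (by norm_num) (by norm_num)))

/-- the variable directly in front has exponent `1` -/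
theorem SitP.adm (S : SitP k c q e e0) (h : Adm e0) : Adm e :=
  adm_of_op (TP k c q) (fun _ hg => TP_hits k c q hg) S.TP_full (fun _ hy => S.TP_low hy) h

end Pool.Agent.CTL45
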