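import Pool.Agent.CTL45.Base

set_option autoImplicit false

/-!
# Saturated tails: the operator

Positions `w 0 = p`, `w 1 < w 2 < ... < w r`.  The operator is the sum over `l ≤ u` of the full
cross effect of `x_p` over `{w (l+1), ..., w r}` after the cyclic shift of the variables
`w 0, ..., w l`.
-/

namespace Pool.Agent.CTL45

open Pool.Agent.Helper60.Hit MvPolynomial

variable {n : ℕ}

/-- shifted exponent vectors -/
def cyc (w : ℕ → Fin (n + 1)) : ℕ → (Fin (n + 1) → ℕ) → (Fin (n + 1) → ℕ)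
  | 0, y => y
  | l + 1, y => fun i => cyc w l y (Equiv.swap (w 0) (w (l + 1)) i)

/-- strictly increasing positions up to index `r` -/
def Inc (w : ℕ → Fin (n + 1)) (r : ℕ) : Prop := ∀ i j, i < j → j ≤ r → w i < w j

variable {w : ℕ → Fin (n + 1)} {r : ℕ}

theorem Inc.ne (h : Inc w r) {i j : ℕ} (hij : i ≠ j) (hi : i ≤ r) (hj : j ≤ r) : w i ≠ w j := by
  rcases lt_or_gt_of_ne hij with h1 | h1
  · exact ne_of_lt (h i j h1 hj)
  · exact ne_of_gt (h j i h1 hi)

theorem cyc_spec (h : Inc w r) (y : Fin (n + 1) → ℕ) (l : ℕ) (hl : l ≤ r) :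
    cyc w l y (w 0) = y (w l) ∧ (∀ j < l, cyc w l y (w (j + 1)) = y (w j)) ∧
      ∀ i, (∀ j ≤ l, i ≠ w j) → cyc w l y i = y i := by
  induction l with
  | zero => exact ⟨rfl, fun j hj => absurd hj (Nat.not_lt_zero j), fun i _ => rfl⟩
  | succ l ih =>
    obtain ⟨h1, h2, h3⟩ := ih (by omega)
    refine ⟨?_, ?_, ?_⟩
    · show cyc w l y (Equiv.swap (w 0) (w (l + 1)) (w 0)) = _
      rw [Equiv.swap_apply_left]
      exact h3 _ (fun j hj => h.ne (by omega) hl (by omega))
    · intro j hj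
      show cyc w l y (Equiv.swap (w 0) (w (l + 1)) (w (j + 1))) = _
      by_cases hjl : j = l
      · subst hjl
        rw [Equiv.swap_apply_right]; exact h1
      · rw [Equiv.swap_apply_of_ne_of_ne (h.ne (by omega) (by omega) (by omega))
          (h.ne (by omega) (by omega) hl)]
        exact h2 j (by omega)
    · intro i hi
      show cyc w l y (Equiv.swap (w 0) (w (l + 1)) i) = _
      rw [Equiv.swap_apply_of_ne_of_ne (hi 0 (by omega)) (hi (l + 1) le_rfl)]
      exact h3 i (fun j hj => hi j (by omega))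

theorem wt_cyc (w : ℕ → Fin (n + 1)) (y : Fin (n + 1) → ℕ) (l : ℕ) : wt (cyc w l y) = wt y := by
  induction l with
  | zero => rfl
  | succ l ih =>
    rw [← ih]
    funext s
    unfold wt
    exact Equiv.sum_comp (Equiv.swap (w 0) (w (l + 1))) (fun i => cyc w l y i / 2 ^ s % 2)

theorem sum_cyc (w : ℕ → Fin (n + 1)) (y : Fin (n + 1) → ℕ) (l : ℕ) :
    ∑ i, cyc w l y i = ∑ i, y i := by
  induction l with
  | zero => rfl
  | succ l ih =>
    rw [← ih]
    exact Equiv.sum_comp (Equiv.swap (w 0) (w (l + 1))) (fun i => cyc w l y i)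

/-! ### operators -/

/-- exchange of two variables -/
noncomputable def swapOp (a b : Fin (n + 1)) :
    MvPolynomial (Fin (n + 1)) (ZMod 2) →ₐ[ZMod 2] MvPolynomial (Fin (n + 1)) (ZMod 2) :=
  aeval (fun i => X (Equiv.swap a b i))

theorem swapOp_mono (a b : Fin (n + 1)) (z : Fin (n + 1) → ℕ) :
    swapOp a b (mono z) = mono (fun i => z (Equiv.swap a b i)) := by
  unfold swapOp
  rw [aeval_mono, mono_eq_prod, ← Equiv.prod_comp (Equiv.swap a b)
    (fun i => (X i : MvPolynomial (Fin (n + 1)) (ZMod 2)) ^ z (Equiv.swap a b i))]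
  refine Finset.prod_congr rfl fun i _ => ?_
  rw [Equiv.swap_apply_self]

theorem swapOp_hits (a b : Fin (n + 1)) {g : MvPolynomial (Fin (n + 1)) (ZMod 2)}
    (hg : g ∈ hits (n + 1)) : swapOp a b g ∈ hits (n + 1) :=
  aeval_hits _ (fun _ => lin_X _) hg

/-- the cyclic shift of the variables `w 0, ..., w l` -/
noncomputable def PP (w : ℕ → Fin (n + 1)) : ℕ →
    (MvPolynomial (Fin (n + 1)) (ZMod 2) →ₗ[ZMod 2] MvPolynomial (Fin (n + 1)) (ZMod 2))
  | 0 => LinearMap.id
  | l + 1 => (swapOp (w 0) (w (l + 1))).toLinearMap ∘ₗ PP w l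

theorem PP_mono (w : ℕ → Fin (n + 1)) (y : Fin (n + 1) → ℕ) (l : ℕ) :
    PP w l (mono y) = mono (cyc w l y) := by
  induction l with
  | zero => rfl
  | succ l ih =>
    show swapOp (w 0) (w (l + 1)) (PP w l (mono y)) = _
    rw [ih, swapOp_mono]
    rfl

theorem PP_hits (w : ℕ → Fin (n + 1)) (l : ℕ) {g : MvPolynomial (Fin (n + 1)) (ZMod 2)}
    (hg : g ∈ hits (n + 1)) : PP w l g ∈ hits (n + 1) := by
  induction l with
  | zero => exact hg
  | succ l ih => exact swapOp_hits _ _ ih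

/-- full cross effect of `x_p` over `M` -/
noncomputable def CM (p : Fin (n + 1)) (M : Finset (Fin (n + 1))) :
    MvPolynomial (Fin (n + 1)) (ZMod 2) →ₗ[ZMod 2] MvPolynomial (Fin (n + 1)) (ZMod 2) :=
  ∑ I ∈ M.powerset, (aeval (fun j => if j = p then ∑ i ∈ I, X i else X j) :
    MvPolynomial (Fin (n + 1)) (ZMod 2) →ₐ[ZMod 2]
      MvPolynomial (Fin (n + 1)) (ZMod 2)).toLinearMap

theorem CM_hits (p : Fin (n + 1)) (M : Finset (Fin (n + 1)))
    {g : MvPolynomial (Fin (n + 1)) (ZMod 2)} (hg : g ∈ hits (n + 1)) :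
    CM p M g ∈ hits (n + 1) := by
  unfold CM
  rw [LinearMap.sum_apply]
  refine Submodule.sum_mem _ fun I _ => aeval_hits _ (fun j => ?_) hg
  split_ifs
  · exact lin_sum I
  · exact lin_X j

theorem CM_mono (p : Fin (n + 1)) (M : Finset (Fin (n + 1))) (z : Fin (n + 1) → ℕ) :
    CM p M (mono z) = Cr M (z p) * mono (Function.update z p 0) := by
  classical
  unfold CM Cr
  rw [LinearMap.sum_apply, Finset.sum_mul]
  refine Finset.sum_congr rfl fun I _ => ?_
  rw [AlgHom.toLinearMap_apply, aeval_mono, ← Finset.mul_prod_erase _ _ (Finset.mem_univ p),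
    if_pos rfl]
  congr 1
  rw [mono_eq_prod, ← Finset.mul_prod_erase Finset.univ
    (fun i => (X i : MvPolynomial (Fin (n + 1)) (ZMod 2)) ^ Function.update z p 0 i)
    (Finset.mem_univ p), Function.update_self, pow_zero, one_mul]
  refine Finset.prod_congr rfl fun j hj => ?_
  rw [Finset.mem_erase] at hj
  rw [if_neg hj.1, Function.update_of_ne hj.1]

/-- `{w (l+1), ..., w r}` -/
def MM (w : ℕ → Fin (n + 1)) (r l : ℕ) : Finset (Fin (n + 1)) := (Finset.Ioc l r).image w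

/-- base exponent vector of the `l`-th summand -/
def bs (w : ℕ → Fin (n + 1)) (l : ℕ) (y : Fin (n + 1) → ℕ) : Fin (n + 1) → ℕ :=
  Function.update (cyc w l y) (w 0) 0

/-- the operator -/
noncomputable def TS (w : ℕ → Fin (n + 1)) (r u : ℕ) :
    MvPolynomial (Fin (n + 1)) (ZMod 2) →ₗ[ZMod 2] MvPolynomial (Fin (n + 1)) (ZMod 2) :=
  ∑ l ∈ Finset.range (u + 1), CM (w 0) (MM w r l) ∘ₗ PP w l

theorem TS_hits (w : ℕ → Fin (n + 1)) (r u : ℕ) {g : MvPolynomial (Fin (n + 1)) (ZMod 2)}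
    (hg : g ∈ hits (n + 1)) : TS w r u g ∈ hits (n + 1) := by
  unfold TS
  rw [LinearMap.sum_apply]
  exact Submodule.sum_mem _ fun l _ => CM_hits _ _ (PP_hits w l hg)

theorem TS_mono (h : Inc w r) (u : ℕ) (hu : u ≤ r) (y : Fin (n + 1) → ℕ) :
    TS w r u (mono y) =
      ∑ l ∈ Finset.range (u + 1), Cr (MM w r l) (y (w l)) * mono (bs w l y) := by
  unfold TS
  rw [LinearMap.sum_apply]
  refine Finset.sum_congr rfl fun l hl => ?_
  rw [Finset.mem_range] at hl
  rw [LinearMap.comp_apply, PP_mono, CM_mono, (cyc_spec h y l (by omega)).1]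
  rfl

theorem mem_MM {l : ℕ} {i : Fin (n + 1)} : i ∈ MM w r l ↔ ∃ j, l < j ∧ j ≤ r ∧ w j = i := by
  unfold MM
  rw [Finset.mem_image]
  constructor
  · rintro ⟨j, hj, rfl⟩
    rw [Finset.mem_Ioc] at hj
    exact ⟨j, hj.1, hj.2, rfl⟩
  · rintro ⟨j, h1, h2, rfl⟩
    exact ⟨j, Finset.mem_Ioc.mpr ⟨h1, h2⟩, rfl⟩

theorem MM_insert {l : ℕ} (hl : l < r) : MM w r l = insert (w (l + 1)) (MM w r (l + 1)) := by
  ext i
  rw [Finset.mem_insert, mem_MM, mem_MM]
  constructor
  · rintro ⟨j, h1, h2, rfl⟩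
    by_cases hj : j = l + 1
    · left; rw [hj]
    · right; exact ⟨j, by omega, h2, rfl⟩
  · rintro (rfl | ⟨j, h1, h2, rfl⟩)
    · exact ⟨l + 1, by omega, by omega, rfl⟩
    · exact ⟨j, by omega, h2, rfl⟩

theorem Inc.notMem (h : Inc w r) {l j : ℕ} (hj : j ≤ l) (hl : l ≤ r) : w j ∉ MM w r l := by
  rw [mem_MM]
  rintro ⟨j', h1, h2, h3⟩
  exact h.ne (by omega : j' ≠ j) h2 (by omega) h3

theorem Inc.card_MM (h : Inc w r) (l : ℕ) : (MM w r l).card = r - l := by
  unfold MM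
  rw [Finset.card_image_of_injOn, Nat.card_Ioc]
  intro i hi j hj hij
  rw [Finset.coe_Ioc, Set.mem_Ioc] at hi hj
  by_contra hne
  exact h.ne hne hi.2 hj.2 hij

theorem Inc.lt_of_mem (h : Inc w r) {l j : ℕ} (hj : j ≤ l) {i : Fin (n + 1)}
    (hi : i ∈ MM w r l) : w j < i := by
  rw [mem_MM] at hi
  obtain ⟨j', h1, h2, rfl⟩ := hi
  exact h j j' (by omega) h2

/-! ### base vectors -/

theorem bs_zero (l : ℕ) (y : Fin (n + 1) → ℕ) : bs w l y (w 0) = 0 := by
  unfold bs; rw [Function.update_self]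

theorem bs_succ (h : Inc w r) (y : Fin (n + 1) → ℕ) {l j : ℕ} (hl : l ≤ r) (hj : j < l) :
    bs w l y (w (j + 1)) = y (w j) := by
  unfold bs
  rw [Function.update_of_ne (h.ne (by omega) (by omega) (by omega))]
  exact (cyc_spec h y l hl).2.1 j hj

theorem bs_other (h : Inc w r) (y : Fin (n + 1) → ℕ) {l : ℕ} (hl : l ≤ r) {i : Fin (n + 1)}
    (hi : ∀ j ≤ l, i ≠ w j) : bs w l y i = y i := by
  unfold bs
  rw [Function.update_of_ne (hi 0 (by omega))]
  exact (cyc_spec h y l hl).2.2 i hi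

theorem wt_update (z : Fin (n + 1) → ℕ) (p : Fin (n + 1)) (s : ℕ) :
    wt z s = z p / 2 ^ s % 2 + wt (Function.update z p 0) s := by
  classical
  unfold wt
  rw [← Finset.add_sum_erase Finset.univ (fun j => z j / 2 ^ s % 2) (Finset.mem_univ p),
    ← Finset.add_sum_erase Finset.univ (fun j => Function.update z p 0 j / 2 ^ s % 2)
      (Finset.mem_univ p)]
  simp only [Function.update_self, Nat.zero_div, Nat.zero_mod, zero_add]
  congr 1
  refine Finset.sum_congr rfl fun j hj => ?_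
  rw [Finset.mem_erase] at hj
  rw [Function.update_of_ne hj.1]

theorem sum_update (z : Fin (n + 1) → ℕ) (p : Fin (n + 1)) :
    ∑ i, z i = z p + ∑ i, Function.update z p 0 i := by
  classical
  rw [← Finset.add_sum_erase Finset.univ z (Finset.mem_univ p),
    ← Finset.add_sum_erase Finset.univ (Function.update z p 0) (Finset.mem_univ p),
    Function.update_self, zero_add]
  congr 1
  refine Finset.sum_congr rfl fun j hj => ?_
  rw [Finset.mem_erase] at hj
  rw [Function.update_of_ne hj.1]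

theorem wt_good_bs (h : Inc w r) {l : ℕ} (hl : l ≤ r) {y c : Fin (n + 1) → ℕ}
    {M : Finset (Fin (n + 1))} (hc : Good M (y (w l)) c) :
    wt c + wt (bs w l y) = wt y := by
  funext s
  rw [Pi.add_apply, hc.2.2 s, ← wt_cyc w y l, wt_update (cyc w l y) (w 0) s,
    (cyc_spec h y l hl).1]
  rfl

/-- terms do not increase the weight vector -/
theorem term_le (h : Inc w r) {l : ℕ} (hl : l ≤ r) {y c : Fin (n + 1) → ℕ}
    {M : Finset (Fin (n + 1))} (hc : Good M (y (w l)) c) :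
    LexLE (wt (c + bs w l y)) (wt y) := by
  rw [← wt_good_bs h hl hc]
  exact wt_add_le _ _

theorem term_carry (h : Inc w r) {l : ℕ} (hl : l ≤ r) {y c : Fin (n + 1) → ℕ}
    {M : Finset (Fin (n + 1))} (hc : Good M (y (w l)) c) {i : Fin (n + 1)} {s : ℕ}
    (h1 : c i / 2 ^ s % 2 = 1) (h2 : bs w l y i / 2 ^ s % 2 = 1) :
    LexLT (wt (c + bs w l y)) (wt y) := by
  rw [← wt_good_bs h hl hc]
  exact wt_add_lt h1 h2

theorem term_sum (h : Inc w r) {l : ℕ} (hl : l ≤ r) {y c : Fin (n + 1) → ℕ}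
    {M : Finset (Fin (n + 1))} (hc : Good M (y (w l)) c) :
    ∑ i, (c + bs w l y) i = ∑ i, y i := by
  simp only [Pi.add_apply]
  rw [Finset.sum_add_distrib, hc.2.1, ← sum_cyc w y l, sum_update (cyc w l y) (w 0),
    (cyc_spec h y l hl).1]
  rfl

/-- membership of a summand, from its terms -/
theorem summand_mem {Q : (Fin (n + 1) → ℕ) → Prop} {M : Finset (Fin (n + 1))} {a : ℕ}
    {b : Fin (n + 1) → ℕ} (hQ : ∀ c, Good M a c → Q (c + b)) : Cr M a * mono b ∈ msp Q := by
  refine msp_mul (Q1 := Good M a) (Q2 := fun z => z = b) ?_ (Cr_mem M a) (mono_mem_msp rfl)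
  rintro c z hc rfl
  exact hQ c hc

end Pool.Agent.CTL45
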