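import Pool.Agent.CTL45.Sat1

set_option autoImplicit false

/-!
# Saturated tails: the terms
-/

namespace Pool.Agent.CTL45

open Pool.Agent.Helper60.Hit MvPolynomial

variable {n : ℕ} {w : ℕ → Fin (n + 1)} {r : ℕ}

theorem monLT_of_wt {y v : Fin (n + 1) → ℕ} (h1 : ∑ i, y i = ∑ i, v i)
    (h2 : LexLT (wt y) (wt v)) : MonLT y v := ⟨h1, Or.inl h2⟩

theorem monLT_of_lexF' {y v : Fin (n + 1) → ℕ} (h1 : ∑ i, y i = ∑ i, v i)
    (h2 : LexLE (wt y) (wt v)) (h3 : LexF y v) : MonLT y v := by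
  refine ⟨h1, ?_⟩
  rcases h2 with h2 | h2
  · exact Or.inr ⟨h2, h3⟩
  · exact Or.inl h2

/-- all the bits below `r` set -/
theorem ge_of_bits {a r : ℕ} (h : ∀ s < r, a / 2 ^ s % 2 = 1) : 2 ^ r - 1 ≤ a := by
  apply le_of_popcount
  rw [Finset.sum_congr rfl (fun s hs => h s (Finset.mem_range.mp hs))]
  simp

theorem bits_of_pred (r s : ℕ) (hs : s < r) : (2 ^ r - 1) / 2 ^ s % 2 = 1 := by
  have h1 : ((2 ^ r - 1).testBit s) = true := by
    rw [Nat.testBit_two_pow_sub_one]; simpa using hs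
  rw [Nat.testBit_eq_decide_div_mod_eq] at h1
  simpa using h1

theorem bits_of_pred' (r s : ℕ) : (2 ^ r - 1) / 2 ^ s % 2 = if s < r then 1 else 0 := by
  by_cases hs : s < r
  · rw [if_pos hs, bits_of_pred r s hs]
  · rw [if_neg hs]
    have : (2 ^ r - 1) / 2 ^ s = 0 := by
      apply Nat.div_eq_of_lt
      have h1 : 2 ^ r ≤ 2 ^ s := Nat.pow_le_pow_right (by norm_num) (by omega)
      have h2 := Nat.one_le_two_pow (n := r)
      omega
    rw [this]

theorem mod_of_bits {a r : ℕ} (h : ∀ s < r, a / 2 ^ s % 2 = 1) : a % 2 ^ r = 2 ^ r - 1 := by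
  have h1 : 2 ^ r - 1 ≤ a % 2 ^ r := by
    apply ge_of_bits
    intro s hs
    have h2 : ((a % 2 ^ r).testBit s) = true := by
      rw [Nat.testBit_mod_two_pow]
      have h3 : a.testBit s = true := by
        rw [Nat.testBit_eq_decide_div_mod_eq, h s hs]; simp
      rw [h3]; simpa using hs
    rw [Nat.testBit_eq_decide_div_mod_eq] at h2
    simpa using h2
  have h2 : a % 2 ^ r < 2 ^ r := Nat.mod_lt _ (by positivity)
  omega

/-- a nonzero part of `2 ^ r - 1` has a bit below `r` -/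
theorem exists_bit {d : ℕ} {M : Finset (Fin d)} {c : Fin d → ℕ} {r : ℕ}
    (hc : Good M (2 ^ r - 1) c) {i : Fin d} (hi : i ∈ M) :
    ∃ s < r, c i / 2 ^ s % 2 = 1 := by
  have h1 : c i ≠ 0 := (hc.1 i).mpr hi
  have h2 : c i ≤ 2 ^ r - 1 := by
    rw [← hc.2.1]
    exact Finset.single_le_sum (f := c) (fun _ _ => Nat.zero_le _) (Finset.mem_univ i)
  have h3 := Nat.one_le_two_pow (n := r)
  by_contra hno
  push Not at hno
  have h4 := one_le_popcount r (c i) h1 (by omega)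
  have h5 : ∑ s ∈ Finset.range r, c i / 2 ^ s % 2 = 0 := by
    apply Finset.sum_eq_zero
    intro s hs
    have := hno s (Finset.mem_range.mp hs)
    omega
  omega

/-- the situation -/
structure Sat (w : ℕ → Fin (n + 1)) (r u : ℕ) (e e0 : Fin (n + 1) → ℕ) : Prop where
  hu : u < r
  inc : Inc w r
  he : ∀ j ≤ u, e (w j) = 2 ^ r - 1
  e0eq : e0 = cstar r (w (u + 1)) (MM w r (u + 1)) + Function.update e (w 0) 0
  hwt : wt e0 = wt e
  full : ∀ i, w 0 < i → ∀ s < r, e0 i / 2 ^ s % 2 = 1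

variable {u : ℕ} {e e0 : Fin (n + 1) → ℕ}

theorem Sat.good (S : Sat w r u e e0) :
    Good (MM w r u) (2 ^ r - 1) (cstar r (w (u + 1)) (MM w r (u + 1))) := by
  rw [MM_insert S.hu]
  refine (Cr_lead (fun x hx => S.inc.lt_of_mem le_rfl hx) ?_).1
  rw [S.inc.card_MM]; have := S.hu; omega

theorem Sat.e0_eq_zero (S : Sat w r u e e0) : e0 (w 0) = 0 := by
  rw [S.e0eq, Pi.add_apply, Function.update_self, add_zero]
  by_contra hne
  exact S.inc.notMem (Nat.zero_le u) (le_of_lt S.hu) ((S.good.1 _).mp hne)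

theorem Sat.e0_of_notMem (S : Sat w r u e e0) {i : Fin (n + 1)} (hi : i ∉ MM w r u)
    (hi0 : i ≠ w 0) : e0 i = e i := by
  rw [S.e0eq, Pi.add_apply, Function.update_of_ne hi0]
  have : cstar r (w (u + 1)) (MM w r (u + 1)) i = 0 := by
    by_contra hne
    exact hi ((S.good.1 _).mp hne)
  rw [this, zero_add]

theorem Sat.sum_eq (S : Sat w r u e e0) : ∑ i, e0 i = ∑ i, e i := by
  rw [S.e0eq]
  simp only [Pi.add_apply]
  rw [Finset.sum_add_distrib, S.good.2.1, sum_update e (w 0), S.he 0 (Nat.zero_le u)]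

/-- equal weight and equal front part force all the low bits behind `w 0` -/
theorem Sat.fullness (S : Sat w r u e e0) {t : Fin (n + 1) → ℕ} (hw : wt t = wt e0)
    (hpre : ∀ i, i ≤ w 0 → t i = e0 i) {i : Fin (n + 1)} (hi : w 0 < i) {s : ℕ} (hs : s < r) :
    t i / 2 ^ s % 2 = 1 := by
  have h1 := congrFun hw s
  unfold wt at h1
  have h2 : ∀ j ∈ (Finset.univ : Finset (Fin (n + 1))), t j / 2 ^ s % 2 ≤ e0 j / 2 ^ s % 2 := by
    intro j _
    rcases le_or_gt j (w 0) with hj | hj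
    · rw [hpre j hj]
    · rw [S.full j hj s hs]
      have : t j / 2 ^ s % 2 < 2 := Nat.mod_lt _ (by norm_num)
      omega
  have h3 := (Finset.sum_eq_sum_iff_of_le h2).mp h1 i (Finset.mem_univ i)
  rw [h3]; exact S.full i hi s hs

/-- a term with a deficient entry behind `w 0` has smaller weight -/
theorem Sat.lt_of_deficient (S : Sat w r u e e0) {t : Fin (n + 1) → ℕ}
    (hle : LexLE (wt t) (wt e0)) (hpre : ∀ i, i ≤ w 0 → t i = e0 i) {i : Fin (n + 1)}
    (hi : w 0 < i) (hlow : t i % 2 ^ r ≠ 2 ^ r - 1) : LexLT (wt t) (wt e0) := by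
  rcases hle with hle | hle
  · exact absurd (mod_of_bits (fun s hs => S.fullness hle hpre hi hs)) hlow
  · exact hle

/-- terms agree with `e0` up to `w 0` -/
theorem Sat.pre (S : Sat w r u e e0) {y c : Fin (n + 1) → ℕ} {l a : ℕ} (hl : l ≤ r)
    (hy : ∀ i < w 0, y i = e i) (hc : Good (MM w r l) a c) :
    ∀ i, i ≤ w 0 → (c + bs w l y) i = e0 i := by
  intro i hi
  have hci : c i = 0 := by
    by_contra hne
    have := S.inc.lt_of_mem (Nat.zero_le l) ((hc.1 i).mp hne)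
    exact absurd (lt_of_lt_of_le this hi) (lt_irrefl _)
  rw [Pi.add_apply, hci, zero_add]
  rcases lt_or_eq_of_le hi with h | h
  · have hne : ∀ j ≤ l, i ≠ w j := by
      intro j hj
      rcases Nat.eq_zero_or_pos j with rfl | hj0
      · exact ne_of_lt h
      · exact ne_of_lt (h.trans (S.inc 0 j hj0 (by omega)))
    rw [bs_other S.inc y hl hne, hy i h, S.e0_of_notMem ?_ (ne_of_lt h)]
    intro hmem
    exact absurd (h.trans (S.inc.lt_of_mem (Nat.zero_le u) hmem)) (lt_irrefl _)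
  · rw [h, bs_zero, S.e0_eq_zero]

/-- carry: `w (l+1)` is full and receives a low bit -/
theorem Sat.carry (S : Sat w r u e e0) {y c : Fin (n + 1) → ℕ} {l : ℕ} (hl : l < u)
    (h1 : y (w l) = 2 ^ r - 1) (h2 : y (w (l + 1)) = 2 ^ r - 1)
    (hc : Good (MM w r l) (y (w l)) c) : LexLT (wt (c + bs w l y)) (wt y) := by
  have hu := S.hu
  have hmem : w (l + 1) ∈ MM w r l := mem_MM.mpr ⟨l + 1, by omega, by omega, rfl⟩
  obtain ⟨s, hs, hs1⟩ := exists_bit (by rw [h1] at hc; exact hc) hmem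
  refine term_carry S.inc (by omega) hc hs1 ?_
  rw [bs_other S.inc y (by omega) (fun j hj => S.inc.ne (by omega) (by omega) (by omega)), h2]
  exact bits_of_pred r s hs

end Pool.Agent.CTL45
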