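import Pool.Agent.CTL45.Sat2

set_option autoImplicit false

/-!
# Saturated tails: the operator transports admissibility
-/

namespace Pool.Agent.CTL45

open Pool.Agent.Helper60.Hit MvPolynomial

variable {n : ℕ} {w : ℕ → Fin (n + 1)} {r u : ℕ} {e e0 : Fin (n + 1) → ℕ}

theorem lexF_add_add {a b c d : Fin (n + 1) → ℕ} (h1 : LexF a b) (h2 : LexF c d) :
    LexF (a + c) (b + d) := by
  obtain ⟨i, hi, hi'⟩ := h1
  obtain ⟨j, hj, hj'⟩ := h2
  rcases lt_trichotomy i j with h | h | h
  · refine ⟨i, fun k hk => ?_, ?_⟩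
    · rw [Pi.add_apply, Pi.add_apply, hi k hk, hj k (hk.trans h)]
    · rw [Pi.add_apply, Pi.add_apply, hj i h]; omega
  · subst h
    refine ⟨i, fun k hk => ?_, ?_⟩
    · rw [Pi.add_apply, Pi.add_apply, hi k hk, hj k hk]
    · rw [Pi.add_apply, Pi.add_apply]; omega
  · refine ⟨j, fun k hk => ?_, ?_⟩
    · rw [Pi.add_apply, Pi.add_apply, hi k (hk.trans h), hj k hk]
    · rw [Pi.add_apply, Pi.add_apply, hi j h]; omega

theorem Inc.le (h : Inc w r) {i j : ℕ} (hij : i ≤ j) (hj : j ≤ r) : w i ≤ w j := by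
  rcases eq_or_lt_of_le hij with h1 | h1
  · rw [h1]
  · exact le_of_lt (h i j h1 hj)

theorem Sat.e0_upd (S : Sat w r u e e0) {i : Fin (n + 1)} (hi : i ∉ MM w r u) :
    e0 i = Function.update e (w 0) 0 i := by
  rw [S.e0eq, Pi.add_apply]
  have : cstar r (w (u + 1)) (MM w r (u + 1)) i = 0 := by
    by_contra hne
    exact hi ((S.good.1 _).mp hne)
  rw [this, zero_add]

theorem Sat.bs_eq (S : Sat w r u e e0) {l : ℕ} (hl : l ≤ u) {y : Fin (n + 1) → ℕ}
    {i : Fin (n + 1)} (hy : ∀ j ≤ i, y j = e j) :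
    bs w l y i = Function.update e (w 0) 0 i := by
  have hu := S.hu
  by_cases h0 : i = w 0
  · rw [h0, bs_zero, Function.update_self]
  · rw [Function.update_of_ne h0]
    by_cases h1 : ∃ j < l, i = w (j + 1)
    · obtain ⟨j, hj, rfl⟩ := h1
      rw [bs_succ S.inc y (by omega) hj, hy _ (le_of_lt (S.inc j (j + 1) (by omega) (by omega))),
        S.he j (by omega), S.he (j + 1) (by omega)]
    · rw [bs_other S.inc y (by omega) ?_, hy i le_rfl]
      intro j hj hij
      rcases Nat.eq_zero_or_pos j with rfl | hj0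
      · exact h0 hij
      · exact h1 ⟨j - 1, by omega, by rw [hij, Nat.sub_add_cancel hj0]⟩

theorem Sat.mon_of_wt (S : Sat w r u e e0) {y c : Fin (n + 1) → ℕ} {l : ℕ} (hl : l ≤ u)
    {M : Finset (Fin (n + 1))} (hsum : ∑ i, y i = ∑ i, e i) (hc : Good M (y (w l)) c)
    (h : LexLT (wt (c + bs w l y)) (wt e0)) : MonLT (c + bs w l y) e0 := by
  have hu := S.hu
  refine monLT_of_wt ?_ h
  rw [term_sum S.inc (by omega) hc, hsum, S.sum_eq]

theorem Sat.mon_of_lexF (S : Sat w r u e e0) {y c : Fin (n + 1) → ℕ} {l : ℕ} (hl : l ≤ u)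
    {M : Finset (Fin (n + 1))} (hsum : ∑ i, y i = ∑ i, e i) (hle : LexLE (wt y) (wt e))
    (hc : Good M (y (w l)) c) (h : LexF (c + bs w l y) e0) : MonLT (c + bs w l y) e0 := by
  have hu := S.hu
  refine monLT_of_lexF' ?_ ?_ h
  · rw [term_sum S.inc (by omega) hc, hsum, S.sum_eq]
  · rw [S.hwt]; exact LexLE.trans (term_le S.inc (by omega) hc) hle

theorem good_zero {M : Finset (Fin (n + 1))} {a : ℕ} {c : Fin (n + 1) → ℕ} (hc : Good M a c)
    {i : Fin (n + 1)} (hi : i ∉ M) : c i = 0 := by
  by_contra hne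
  exact hi ((hc.1 i).mp hne)

/-- the first difference lies before the next position and is not one of the earlier ones -/
theorem Sat.X_case (S : Sat w r u e e0) {y c : Fin (n + 1) → ℕ} {l : ℕ} {f : Fin (n + 1)}
    (hl : l ≤ u) (hsum : ∑ i, y i = ∑ i, e i) (hle : LexLE (wt y) (wt e))
    (hf : ∀ j < f, y j = e j) (hf' : y f < e f) (hfl : f < w (l + 1))
    (hfw : ∀ j ≤ l, f ≠ w j) (hc : Good (MM w r l) (y (w l)) c) :
    MonLT (c + bs w l y) e0 := by
  have hu := S.hu
  have hnot : ∀ i ≤ f, ∀ l' ≥ l, i ∉ MM w r l' := by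
    intro i hi l' hl' hmem
    rw [mem_MM] at hmem
    obtain ⟨j, h1, h2, rfl⟩ := hmem
    exact absurd (lt_of_lt_of_le (lt_of_le_of_lt hi hfl) (S.inc.le (by omega) h2))
      (lt_irrefl _)
  refine S.mon_of_lexF hl hsum hle hc ⟨f, ?_, ?_⟩
  · intro i hi
    rw [Pi.add_apply, good_zero hc (hnot i (le_of_lt hi) l le_rfl), zero_add,
      S.bs_eq hl (fun j hj => hf j (lt_of_le_of_lt hj hi)),
      S.e0_upd (hnot i (le_of_lt hi) u hl)]
  · rw [Pi.add_apply, good_zero hc (hnot f le_rfl l le_rfl), zero_add,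
      bs_other S.inc y (by omega) hfw, S.e0_upd (hnot f le_rfl u hl),
      Function.update_of_ne (hfw 0 (Nat.zero_le l))]
    exact hf'

/-- a small entry moved behind `w 0` -/
theorem Sat.deficient_case (S : Sat w r u e e0) {y c : Fin (n + 1) → ℕ} {l j : ℕ}
    (hl : l ≤ u) (hj : j < l) (hsum : ∑ i, y i = ∑ i, e i) (hle : LexLE (wt y) (wt e))
    (hpre : ∀ i < w 0, y i = e i) (hyj : y (w j) < 2 ^ r - 1)
    (hc : Good (MM w r l) (y (w l)) c) : MonLT (c + bs w l y) e0 := by
  have hu := S.hu
  refine S.mon_of_wt hl hsum hc ?_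
  refine S.lt_of_deficient (i := w (j + 1)) ?_ (S.pre (by omega) hpre hc)
    (S.inc 0 (j + 1) (by omega) (by omega)) ?_
  · rw [S.hwt]; exact LexLE.trans (term_le S.inc (by omega) hc) hle
  · rw [Pi.add_apply, good_zero hc (S.inc.notMem (by omega : j + 1 ≤ l) (by omega)), zero_add,
      bs_succ S.inc y (by omega) hj, Nat.mod_eq_of_lt (by omega)]
    omega

/-- the carry case -/
theorem Sat.carry_case (S : Sat w r u e e0) {y c : Fin (n + 1) → ℕ} {l : ℕ}
    (hl : l < u) (hsum : ∑ i, y i = ∑ i, e i) (hle : LexLE (wt y) (wt e))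
    (h1 : y (w l) = 2 ^ r - 1) (h2 : y (w (l + 1)) = 2 ^ r - 1)
    (hc : Good (MM w r l) (y (w l)) c) : MonLT (c + bs w l y) e0 := by
  refine S.mon_of_wt (le_of_lt hl) hsum hc ?_
  rw [S.hwt]
  exact (S.carry hl h1 h2 hc).trans_le hle

/-- two consecutive summands cancel up to smaller monomials at the first deficient position -/
theorem Sat.pair (S : Sat w r u e e0) {y : Fin (n + 1) → ℕ} {i : ℕ} (hi : i < u)
    (hsum : ∑ j, y j = ∑ j, e j) (hle : LexLE (wt y) (wt e))
    (hf : ∀ j < w (i + 1), y j = e j) (hf' : y (w (i + 1)) < 2 ^ r - 1) :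
    Cr (MM w r i) (y (w i)) * mono (bs w i y) +
      Cr (MM w r (i + 1)) (y (w (i + 1))) * mono (bs w (i + 1) y) ∈
        msp (fun z => MonLT z e0) := by
  have hu := S.hu
  have hone : 1 ≤ 2 ^ r := Nat.one_le_two_pow
  have hyi : y (w i) = 2 ^ r - 1 := by
    rw [hf _ (S.inc i (i + 1) (by omega) (by omega)), S.he i (by omega)]
  have hnM : w (i + 1) ∉ MM w r (i + 1) := S.inc.notMem le_rfl (by omega)
  have hbi : bs w i y (w (i + 1)) = y (w (i + 1)) :=
    bs_other S.inc y (by omega) (fun j hj => S.inc.ne (by omega) (by omega) (by omega))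
  have hbase : bs w (i + 1) y = Pi.single (w (i + 1)) (2 ^ r - 1 - y (w (i + 1))) +
      bs w i y := by
    funext x
    by_cases hx : x = w (i + 1)
    · rw [hx, bs_succ S.inc y (by omega) (by omega : i < i + 1), Pi.add_apply, Pi.single_eq_same,
        hbi, hyi]
      omega
    · rw [Pi.add_apply, Pi.single_eq_of_ne hx, zero_add]
      by_cases hx0 : x = w 0
      · rw [hx0, bs_zero, bs_zero]
      · by_cases hx1 : ∃ j < i, x = w (j + 1)
        · obtain ⟨j, hj, rfl⟩ := hx1
          rw [bs_succ S.inc y (by omega) (by omega : j < i + 1),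
            bs_succ S.inc y (by omega) hj]
        · have hno : ∀ j ≤ i, x ≠ w j := by
            intro j hj hxj
            rcases Nat.eq_zero_or_pos j with rfl | hj0
            · exact hx0 hxj
            · exact hx1 ⟨j - 1, by omega, by rw [hxj, Nat.sub_add_cancel hj0]⟩
          rw [bs_other S.inc y (by omega) hno, bs_other S.inc y (by omega) ?_]
          intro j hj hxj
          by_cases hji : j = i + 1
          · subst hji; exact hx hxj
          · exact hno j (by omega) hxj
  rw [hyi, MM_insert (by omega : i < r), Cr_insert hnM, hbase, mono_add, Finset.sum_mul]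
  have hmem : 2 ^ r - 1 - y (w (i + 1)) - 1 ∈ Finset.range (2 ^ r - 1) := by
    rw [Finset.mem_range]; omega
  rw [← Finset.add_sum_erase _ _ hmem]
  have e2 : 2 ^ r - 1 - y (w (i + 1)) - 1 + 1 = 2 ^ r - 1 - y (w (i + 1)) := by omega
  have e3 : 2 ^ r - 1 - (2 ^ r - 1 - y (w (i + 1))) = y (w (i + 1)) := by omega
  rw [e2, e3, odd_natCast _ (choose_two_pow_sub_one r _ (by omega)), one_mul, X_pow_eq_mono]
  have hcancel : ∀ A B C D : MvPolynomial (Fin (n + 1)) (ZMod 2),
      A * B * C + D + B * (A * C) = D := by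
    intro A B C D
    have : A * B * C + D + B * (A * C) = (A * B * C + A * B * C) + D := by ring
    rw [this, CharTwo.add_self_eq_zero, zero_add]
  rw [hcancel]
  refine Submodule.sum_mem _ fun k hk => ?_
  rw [Finset.mem_erase, Finset.mem_range] at hk
  rw [mul_assoc]
  refine natCast_mul_mem _ fun hodd => ?_
  rw [X_pow_eq_mono]
  have h1 : mono (Pi.single (w (i + 1)) (k + 1)) * Cr (MM w r (i + 1)) (2 ^ r - 1 - (k + 1)) ∈
      msp (fun z => ∃ c, Good (MM w r (i + 1)) (2 ^ r - 1 - (k + 1)) c ∧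
        z = Pi.single (w (i + 1)) (k + 1) + c) := by
    refine msp_mul (Q1 := fun z => z = Pi.single (w (i + 1)) (k + 1)) ?_ (mono_mem_msp rfl)
      (Cr_mem _ _)
    rintro x c rfl hc
    exact ⟨c, hc, rfl⟩
  refine msp_mul (Q2 := fun z => z = bs w i y) ?_ h1 (mono_mem_msp rfl)
  rintro x z ⟨c, hc, rfl⟩ rfl
  have hgood := Good_insert hnM (a := 2 ^ r - 1) (k := k + 1) (by omega) hodd hc
  rw [← MM_insert (by omega : i < r), ← hyi] at hgood
  have hcw : c (w (i + 1)) = 0 := good_zero hc hnM
  refine S.mon_of_wt (le_of_lt hi) hsum hgood ?_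
  refine S.lt_of_deficient (i := w (i + 1)) ?_ (S.pre (by omega) ?_ hgood)
    (S.inc 0 (i + 1) (by omega) (by omega)) ?_
  · rw [S.hwt]; exact LexLE.trans (term_le S.inc (by omega) hgood) hle
  · intro j hj
    exact hf j (hj.trans (S.inc 0 (i + 1) (by omega) (by omega)))
  · rw [Pi.add_apply, Pi.add_apply, Pi.single_eq_same, hcw, add_zero, hbi]
    have hk2 : k + 1 + y (w (i + 1)) ≠ 2 ^ r - 1 := by
      intro h; exact hk.1 (by omega)
    rcases Nat.lt_or_ge (k + 1 + y (w (i + 1))) (2 ^ r) with h | h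
    · rw [Nat.mod_eq_of_lt h]; exact hk2
    · rw [Nat.mod_eq_sub_mod h, Nat.mod_eq_of_lt (by omega)]
      omega

theorem Sat.T_low (S : Sat w r u e e0) {y : Fin (n + 1) → ℕ} (hy : MonLT y e) :
    TS w r u (mono y) ∈ msp (fun z => MonLT z e0) := by
  have hu := S.hu
  have hone : 1 ≤ 2 ^ r := Nat.one_le_two_pow
  obtain ⟨hsum, hcase⟩ := hy
  rw [TS_mono S.inc u (by omega)]
  rcases hcase with hlt | ⟨hwt, f, hf, hf'⟩
  · refine Submodule.sum_mem _ fun l hl => summand_mem fun c hc => ?_
    rw [Finset.mem_range] at hl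
    refine S.mon_of_wt (by omega) hsum hc ?_
    rw [S.hwt]; exact (term_le S.inc (by omega) hc).trans_lt hlt
  have hle : LexLE (wt y) (wt e) := Or.inl hwt
  rcases lt_trichotomy f (w 0) with h0 | h0 | h0
  · refine Submodule.sum_mem _ fun l hl => summand_mem fun c hc => ?_
    rw [Finset.mem_range] at hl
    refine S.X_case (by omega) hsum hle hf hf' ?_ ?_ hc
    · exact h0.trans (S.inc 0 (l + 1) (by omega) (by omega))
    · intro j hj
      exact ne_of_lt (lt_of_lt_of_le h0 (S.inc.le (Nat.zero_le j) (by omega)))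
  · subst h0
    refine Submodule.sum_mem _ fun l hl => ?_
    rw [Finset.mem_range] at hl
    rw [S.he 0 (Nat.zero_le _)] at hf'
    rcases Nat.eq_zero_or_pos l with rfl | hl0
    · rw [Cr_eq_zero ?_, zero_mul]
      · exact Submodule.zero_mem _
      · rw [S.inc.card_MM, Nat.sub_zero]; exact hf'
    · refine summand_mem fun c hc => ?_
      exact S.deficient_case (by omega) hl0 hsum hle hf hf' hc
  · -- the first difference lies behind `w 0`
    have hpre : ∀ i < w 0, y i = e i := fun i hi => hf i (hi.trans h0)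
    by_cases hex : ∃ i < u, f = w (i + 1)
    · obtain ⟨i, hi, rfl⟩ := hex
      rw [S.he (i + 1) (by omega)] at hf'
      have hmem1 : i ∈ Finset.range (u + 1) := by rw [Finset.mem_range]; omega
      have hmem2 : i + 1 ∈ (Finset.range (u + 1)).erase i := by
        rw [Finset.mem_erase, Finset.mem_range]; omega
      rw [← Finset.add_sum_erase _ _ hmem1, ← Finset.add_sum_erase _ _ hmem2, ← add_assoc]
      refine Submodule.add_mem _ (S.pair hi hsum hle hf hf') ?_
      refine Submodule.sum_mem _ fun l hl => summand_mem fun c hc => ?_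
      rw [Finset.mem_erase, Finset.mem_erase, Finset.mem_range] at hl
      rcases Nat.lt_or_ge l i with hli | hli
      · refine S.carry_case (by omega) hsum hle ?_ ?_ hc
        · rw [hf _ (S.inc l (i + 1) (by omega) (by omega)), S.he l (by omega)]
        · rw [hf _ (S.inc (l + 1) (i + 1) (by omega) (by omega)), S.he (l + 1) (by omega)]
      · exact S.deficient_case (j := i + 1) (by omega) (by omega) hsum hle hpre hf' hc
    · refine Submodule.sum_mem _ fun l hl => ?_
      rw [Finset.mem_range] at hl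
      have hfw : ∀ j ≤ l, f ≠ w j := by
        intro j hj hfj
        rcases Nat.eq_zero_or_pos j with rfl | hj0
        · exact absurd hfj (ne_of_gt h0)
        · exact hex ⟨j - 1, by omega, by rw [hfj, Nat.sub_add_cancel hj0]⟩
      rcases lt_or_ge f (w (l + 1)) with hfl | hfl
      · exact summand_mem fun c hc => S.X_case (by omega) hsum hle hf hf' hfl hfw hc
      · rcases Nat.lt_or_ge l u with hlu | hlu
        · have hne : w (l + 1) ≠ f := fun h => hex ⟨l, hlu, h.symm⟩
          have hlt : w (l + 1) < f := lt_of_le_of_ne hfl hne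
          refine summand_mem fun c hc => S.carry_case hlu hsum hle ?_ ?_ hc
          · rw [hf _ ((S.inc l (l + 1) (by omega) (by omega)).trans hlt), S.he l (by omega)]
          · rw [hf _ hlt, S.he (l + 1) (by omega)]
        · -- the last summand
          have hlu' : l = u := by omega
          subst hlu'
          have hyu : y (w l) = 2 ^ r - 1 := by
            rw [hf _ (lt_of_lt_of_le (S.inc l (l + 1) (by omega) (by omega)) hfl),
              S.he l le_rfl]
          have hbf : bs w l y f < Function.update e (w 0) 0 f := by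
            rw [bs_other S.inc y (by omega) hfw, Function.update_of_ne (hfw 0 (Nat.zero_le l))]
            exact hf'
          have hbj : ∀ j < f, bs w l y j = Function.update e (w 0) 0 j :=
            fun j hj => S.bs_eq le_rfl (fun k hk => hf k (lt_of_le_of_lt hk hj))
          obtain ⟨-, L, hL, hLe⟩ := Cr_lead (a := w (l + 1)) (s := MM w r (l + 1)) (R := r)
            (fun x hx => S.inc.lt_of_mem le_rfl hx) (by rw [S.inc.card_MM]; omega)
          have hLF : LexF (bs w l y) (Function.update e (w 0) 0) := ⟨f, hbj, hbf⟩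
          have hgoodU := S.good
          rw [hyu, MM_insert hu, hLe, add_mul, ← mono_add]
          rw [MM_insert hu, ← hyu] at hgoodU
          refine Submodule.add_mem _ (mono_mem_msp ?_) ?_
          · refine S.mon_of_lexF le_rfl hsum hle hgoodU ?_
            rw [S.e0eq]
            exact hLF.add_left _
          · refine msp_mul (Q2 := fun z => z = bs w l y) ?_ hL (mono_mem_msp rfl)
            rintro c z ⟨hc, hcF⟩ rfl
            rw [← hyu] at hc
            refine S.mon_of_lexF le_rfl hsum hle hc ?_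
            rw [S.e0eq]
            exact lexF_add_add hcF hLF

theorem Sat.T_full (S : Sat w r u e e0) :
    TS w r u (mono e) - mono e0 ∈ msp (fun z => MonLT z e0) := by
  have hu := S.hu
  have hle : LexLE (wt e) (wt e) := Or.inl rfl
  rw [TS_mono S.inc u (by omega), Finset.sum_range_succ, add_sub_assoc]
  refine Submodule.add_mem _ ?_ ?_
  · refine Submodule.sum_mem _ fun l hl => summand_mem fun c hc => ?_
    rw [Finset.mem_range] at hl
    exact S.carry_case hl rfl hle (S.he l (by omega)) (S.he (l + 1) (by omega)) hc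
  · obtain ⟨-, L, hL, hLe⟩ := Cr_lead (a := w (u + 1)) (s := MM w r (u + 1)) (R := r)
      (fun x hx => S.inc.lt_of_mem le_rfl hx) (by rw [S.inc.card_MM]; omega)
    have hb : bs w u e = Function.update e (w 0) 0 :=
      funext fun i => S.bs_eq le_rfl (fun j _ => rfl)
    have he0 : mono e0 = mono (Pi.single (w (u + 1)) (2 ^ r - 2 ^ (MM w r (u + 1)).card) +
        cst (MM w r (u + 1))) * mono (bs w u e) := by
      rw [← mono_add, hb]
      exact congrArg mono S.e0eq
    rw [S.he u le_rfl, MM_insert hu, hLe, add_mul, he0, add_sub_cancel_left]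
    refine msp_mul (Q2 := fun z => z = bs w u e) ?_ hL (mono_mem_msp rfl)
    rintro c z ⟨hc, hcF⟩ rfl
    rw [← S.he u le_rfl] at hc
    refine S.mon_of_lexF le_rfl rfl hle hc ?_
    rw [hb, S.e0eq]
    obtain ⟨i, hi, hi'⟩ := hcF
    refine ⟨i, fun k hk => ?_, ?_⟩
    · have := hi k hk
      rw [Pi.add_apply, Pi.add_apply, this]
      rfl
    · rw [Pi.add_apply, Pi.add_apply]
      exact Nat.add_lt_add_right hi' _

theorem Sat.adm (S : Sat w r u e e0) (h : Adm e0) : Adm e :=
  adm_of_op (TS w r u) (fun _ hg => TS_hits w r u hg) S.T_full (fun _ hy => S.T_low hy) h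

end Pool.Agent.CTL45
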