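import Pool.Agent.CTL45.Sat3

set_option autoImplicit false

/-!
# Saturated tails: the positions of the problem
-/

namespace Pool.Agent.CTL45

open Pool.Agent.Helper60.Hit MvPolynomial

variable {n : ℕ}

/-- the positions `p, κ 0, κ 1, ...` as a sequence -/
def seqOf (p : Fin (n + 1)) {r : ℕ} (κ : Fin r → Fin (n + 1)) : ℕ → Fin (n + 1)
  | 0 => p
  | j + 1 => if h : j < r then κ ⟨j, h⟩ else p

theorem seqOf_succ (p : Fin (n + 1)) {r : ℕ} (κ : Fin r → Fin (n + 1)) (m : Fin r) :
    seqOf p κ ((m : ℕ) + 1) = κ m := by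
  show (if h : (m : ℕ) < r then κ ⟨m, h⟩ else p) = κ m
  rw [dif_pos m.2]

theorem inc_seqOf {p : Fin (n + 1)} {r : ℕ} {κ : Fin r → Fin (n + 1)} (hκ : StrictMono κ)
    (hpκ : ∀ m, p < κ m) : Inc (seqOf p κ) r := by
  intro i j hij hj
  obtain ⟨j', rfl⟩ : ∃ j', j = j' + 1 := ⟨j - 1, by omega⟩
  have h1 : seqOf p κ (j' + 1) = κ ⟨j', by omega⟩ := seqOf_succ p κ ⟨j', by omega⟩
  rw [h1]
  rcases Nat.eq_zero_or_pos i with rfl | hi
  · exact hpκ _
  · obtain ⟨i', rfl⟩ : ∃ i', i = i' + 1 := ⟨i - 1, by omega⟩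
    have h2 : seqOf p κ (i' + 1) = κ ⟨i', by omega⟩ := seqOf_succ p κ ⟨i', by omega⟩
    rw [h2]
    apply hκ
    rw [Fin.lt_def]
    show i' < j'
    omega

theorem MM_seqOf {p : Fin (n + 1)} {r : ℕ} {κ : Fin r → Fin (n + 1)} (u : Fin r) :
    MM (seqOf p κ) r ((u : ℕ) + 1) = (Finset.Ioi u).image κ := by
  ext i
  rw [mem_MM, Finset.mem_image]
  constructor
  · rintro ⟨j, h1, h2, rfl⟩
    obtain ⟨j', rfl⟩ : ∃ j', j = j' + 1 := ⟨j - 1, by omega⟩
    refine ⟨⟨j', by omega⟩, ?_, (seqOf_succ p κ ⟨j', by omega⟩).symm⟩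
    rw [Finset.mem_Ioi, Fin.lt_def]
    show (u : ℕ) < j'
    omega
  · rintro ⟨m, hm, rfl⟩
    rw [Finset.mem_Ioi, Fin.lt_def] at hm
    exact ⟨(m : ℕ) + 1, by omega, by have := m.2; omega, seqOf_succ p κ m⟩

theorem sat_main (p : Fin (n + 1)) (e0 : Fin (n + 1) → ℕ) (h0 : e0 p = 0)
    (r : ℕ) (κ : Fin r → Fin (n + 1)) (u : Fin r) (e : Fin (n + 1) → ℕ)
    (hκ : StrictMono κ) (hpκ : ∀ m, p < κ m)
    (hfull : ∀ i, p < i → ∀ s < r, e0 i / 2 ^ s % 2 = 1)
    (hlow : ∀ m : Fin r, m < u → e0 (κ m) = 2 ^ r - 1)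
    (hep : e p = 2 ^ r - 1)
    (heu : e (κ u) + ∑ m ∈ Finset.range ((u : ℕ) + 1), 2 ^ (r - 1 - m) = e0 (κ u))
    (hem : ∀ m : Fin r, u < m → e (κ m) + 2 ^ (r - 1 - (m : ℕ)) = e0 (κ m))
    (heq : ∀ i, i ≠ p → (∀ m, u ≤ m → i ≠ κ m) → e i = e0 i) :
    (Adm e0 → Adm e) ∧ wt e = wt e0 ∧ ∑ i, e i = ∑ i, e0 i := by
  classical
  have hκinj : Function.Injective κ := hκ.injective
  have hInc : Inc (seqOf p κ) r := inc_seqOf hκ hpκ
  let s : Finset (Fin (n + 1)) := (Finset.Ioi u).image κ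
  have hMM : MM (seqOf p κ) r ((u : ℕ) + 1) = s := MM_seqOf u
  have hscard : s.card = r - 1 - (u : ℕ) := by
    show ((Finset.Ioi u).image κ).card = _
    rw [Finset.card_image_of_injective _ hκinj, Fin.card_Ioi]
  have hu := u.2
  have ha : ∀ x ∈ s, κ u < x := by
    intro x hx
    obtain ⟨m, hm, rfl⟩ := Finset.mem_image.mp hx
    exact hκ (Finset.mem_Ioi.mp hm)
  have hcst : ∀ m : Fin r, u < m → cst s (κ m) = 2 ^ (r - 1 - (m : ℕ)) := by
    intro m hm
    have hmem : κ m ∈ s := Finset.mem_image.mpr ⟨m, Finset.mem_Ioi.mpr hm, rfl⟩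
    unfold cst
    rw [if_pos hmem]
    congr 1
    have : s.filter (fun x => κ m < x) = (Finset.Ioi m).image κ := by
      ext x
      rw [Finset.mem_filter, Finset.mem_image, Finset.mem_image]
      constructor
      · rintro ⟨⟨m', hm', rfl⟩, hlt⟩
        exact ⟨m', Finset.mem_Ioi.mpr (hκ.lt_iff_lt.mp hlt), rfl⟩
      · rintro ⟨m', hm', rfl⟩
        exact ⟨⟨m', Finset.mem_Ioi.mpr (hm.trans (Finset.mem_Ioi.mp hm')), rfl⟩,
          hκ (Finset.mem_Ioi.mp hm')⟩
    rw [this, Finset.card_image_of_injective _ hκinj, Fin.card_Ioi]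
  have hcst0 : ∀ i, i ∉ s → cst s i = 0 := by
    intro i hi; unfold cst; rw [if_neg hi]
  have hus : κ u ∉ s := fun h => lt_irrefl _ (ha _ h)
  have he0f : cstar r (κ u) s + Function.update e p 0 = e0 := by
    funext i
    unfold cstar
    rw [Pi.add_apply, Pi.add_apply]
    by_cases hip : i = p
    · subst hip
      have h1 : i ≠ κ u := ne_of_lt (hpκ u)
      have h2 : i ∉ s := by
        intro h
        obtain ⟨m, -, hm⟩ := Finset.mem_image.mp h
        exact absurd (hm ▸ hpκ m) (lt_irrefl _)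
      rw [Pi.single_eq_of_ne h1, hcst0 i h2, Function.update_self, h0]
    · rw [Function.update_of_ne hip]
      by_cases hiu : i = κ u
      · subst hiu
        rw [Pi.single_eq_same, hcst0 _ hus, hscard, ← sum_range_two_pow r u hu, ← heu]
        ring
      · rw [Pi.single_eq_of_ne hiu, zero_add]
        by_cases his : i ∈ s
        · obtain ⟨m, hm, rfl⟩ := Finset.mem_image.mp his
          have hm' := Finset.mem_Ioi.mp hm
          rw [hcst m hm', ← hem m hm']; ring
        · rw [hcst0 i his, zero_add]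
          apply heq i hip
          intro m hm hc
          rcases eq_or_lt_of_le hm with h | h
          · exact hiu (by rw [hc, h])
          · exact his (Finset.mem_image.mpr ⟨m, Finset.mem_Ioi.mpr h, hc.symm⟩)
  have hGood := (Cr_lead ha (R := r) (by omega : s.card < r)).1
  have hbit : ∀ (m m' : Fin r), e0 (κ m) / 2 ^ (r - 1 - (m' : ℕ)) % 2 = 1 := by
    intro m m'
    refine hfull _ (hpκ m) _ ?_
    omega
  have hwt : wt e0 = wt e := by
    rw [← he0f, wt_add_eq]
    · funext k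
      have h1 : wt (cstar r (κ u) s) k = (2 ^ r - 1) / 2 ^ k % 2 := hGood.2.2 k
      rw [Pi.add_apply, h1]
      unfold wt
      rw [Fin.sum_univ_succAbove (fun j => Function.update e p 0 j / 2 ^ k % 2) p,
        Fin.sum_univ_succAbove (fun j => e j / 2 ^ k % 2) p, Function.update_self, hep]
      simp
    · intro i k
      unfold cstar
      rw [Pi.add_apply]
      by_cases hip : i = p
      · subst hip
        rw [Function.update_self]; simp
      · rw [Function.update_of_ne hip]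
        by_cases hiu : i = κ u
        · subst hiu
          rw [Pi.single_eq_same, hcst0 _ hus, hscard, ← sum_range_two_pow r u hu, add_zero,
            ← sum_image_two_pow r u hu]
          refine no_common _ (e0 (κ u)) _ ?_ ?_ k
          · intro b hb
            obtain ⟨m, hm, rfl⟩ := Finset.mem_image.mp hb
            rw [Finset.mem_range] at hm
            exact hbit u ⟨m, by omega⟩
          · rw [sum_image_two_pow r u hu, ← heu]
        · rw [Pi.single_eq_of_ne hiu, zero_add]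
          by_cases his : i ∈ s
          · obtain ⟨m, hm, rfl⟩ := Finset.mem_image.mp his
            have hm' := Finset.mem_Ioi.mp hm
            rw [hcst m hm']
            have := no_common {r - 1 - (m : ℕ)} (e0 (κ m)) (e (κ m)) ?_ ?_ k
            · rw [Finset.sum_singleton] at this; exact this
            · intro b hb
              rw [Finset.mem_singleton] at hb
              rw [hb]; exact hbit m m
            · rw [Finset.sum_singleton]; exact hem m hm'
          · rw [hcst0 i his]; simp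
  have S : Sat (seqOf p κ) r (u : ℕ) e e0 := by
    refine ⟨hu, hInc, ?_, ?_, hwt, hfull⟩
    · intro j hj
      rcases Nat.eq_zero_or_pos j with rfl | hj0
      · exact hep
      · obtain ⟨j', rfl⟩ : ∃ j', j = j' + 1 := ⟨j - 1, by omega⟩
        have h1 : seqOf p κ (j' + 1) = κ ⟨j', by omega⟩ := seqOf_succ p κ ⟨j', by omega⟩
        have h2 : (⟨j', by omega⟩ : Fin r) < u := by
          rw [Fin.lt_def]; show j' < (u : ℕ); omega
        rw [h1, heq _ (ne_of_gt (hpκ _)) ?_, hlow _ h2]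
        intro m hm hc
        exact absurd (hκinj hc ▸ hm) (not_le_of_gt h2)
    · rw [hMM, seqOf_succ p κ u]
      exact he0f.symm
  exact ⟨S.adm, hwt.symm, S.sum_eq.symm⟩

end Pool.Agent.CTL45
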